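import Pool.Agent.T2H61.PP.RkMain

/-!
# One normal at each vertex: graphs which are generically rigid in the plane; test graphs
-/

set_option autoImplicit false
set_option linter.unusedSectionVars false

namespace Pool.Agent.T2H61.PP

open Matrix Finset SimpleGraph Pool.Agent.H283R2.DR Pool.Agent.H789R5 Pool.Agent.T2H61.CP

/-- **Choice of normals.** -/
theorem exists_normals {W E : Type} [DecidableEq W] [AddCommGroup E] [Module ℝ E]
    [FiniteDimensional ℝ E] (e : W → E →ₗ[ℝ] (Fin 3 → ℝ)) :
    ∀ (s : Finset W) (K : Submodule ℝ E),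
      (∀ Y ⊆ s, Module.finrank ℝ (K ⊓ ⨅ y ∈ Y, LinearMap.ker (e y) : Submodule ℝ E) + Y.card ≤
        s.card) →
      ∃ n : W → Fin 3 → ℝ, ∀ u ∈ K, (∀ v ∈ s, n v ⬝ᵥ e v u = 0) → u = 0 := by
  classical
  intro s
  induction s using Finset.induction_on with
  | empty =>
    intro K hK
    have h := hK ∅ (subset_refl _)
    have e1 : (K ⊓ ⨅ y ∈ (∅ : Finset W), LinearMap.ker (e y) : Submodule ℝ E) = K := by simp
    rw [e1, card_empty] at h
    have h0 : K = ⊥ := Submodule.finrank_eq_zero.1 (by omega)
    refine ⟨0, fun u hu _ => ?_⟩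
    rw [h0] at hu
    exact (Submodule.mem_bot ℝ).1 hu
  | insert a s ha ih =>
    intro K hK
    rw [card_insert_of_notMem ha] at hK
    set KY : Finset W → Submodule ℝ E := fun Y => K ⊓ ⨅ y ∈ Y, LinearMap.ker (e y) with hKY
    set T : Finset W → Submodule ℝ (Fin 3 → ℝ) := fun Y =>
      { carrier := {n | ∀ u ∈ KY Y, n ⬝ᵥ e a u = 0}
        add_mem' := fun {x y} hx hy u hu => by rw [add_dotProduct, hx u hu, hy u hu, add_zero]
        zero_mem' := fun u _ => zero_dotProduct _
        smul_mem' := fun c x hx u hu => by rw [smul_dotProduct, hx u hu, smul_zero] } with hT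
    obtain ⟨n0, hn0⟩ : ∃ n0 : Fin 3 → ℝ, ∀ Y : {Y : Finset W // Y ⊆ s ∧
        Module.finrank ℝ (KY Y) + Y.card = s.card + 1}, n0 ∉ T Y := by
      by_contra hcon
      push Not at hcon
      have : Finite {Y : Finset W // Y ⊆ s ∧
        Module.finrank ℝ (KY Y) + Y.card = s.card + 1} :=
        Finite.of_injective (fun Y => (⟨Y.1, mem_powerset.2 Y.2.1⟩ : s.powerset))
          (fun x y h => Subtype.ext (by simpa using h))
      obtain ⟨⟨Y, hY, hYc⟩, htop⟩ := Subspace.exists_eq_top_of_iUnion_eq_univ
        (k := ℝ) (E := Fin 3 → ℝ) (p := fun Y : {Y : Finset W // Y ⊆ s ∧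
        Module.finrank ℝ (KY Y) + Y.card = s.card + 1} => T Y) (by
          ext n0
          simp only [Set.mem_iUnion, SetLike.mem_coe, Set.mem_univ, iff_true]
          exact hcon n0)
      have h1 : KY Y ≤ LinearMap.ker (e a) := by
        intro u hu
        rw [LinearMap.mem_ker]
        have h2 : e a u ∈ T Y := by
          have : T Y = ⊤ := htop
          rw [this]
          trivial
        exact dotProduct_self_eq_zero.1 (h2 u hu)
      have h2 := hK (insert a Y) (insert_subset_insert a hY)
      have h3 : (K ⊓ ⨅ y ∈ insert a Y, LinearMap.ker (e y) : Submodule ℝ E) = KY Y := by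
        rw [Finset.iInf_insert, hKY]
        have : K ⊓ (LinearMap.ker (e a) ⊓ ⨅ x ∈ Y, LinearMap.ker (e x)) =
            KY Y ⊓ LinearMap.ker (e a) := by
          rw [hKY, inf_assoc, inf_comm (LinearMap.ker (e a))]
        rw [this]
        exact inf_eq_left.2 h1
      rw [h3, card_insert_of_notMem (fun h => ha (hY h))] at h2
      omega
    obtain ⟨n, hn⟩ := ih (K ⊓ LinearMap.ker ((dotProductBilin ℝ ℝ n0).comp (e a))) (by
      intro Y hY
      have h1 := hK Y (hY.trans (subset_insert a s))
      have hle : (K ⊓ LinearMap.ker ((dotProductBilin ℝ ℝ n0).comp (e a)) ⊓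
          ⨅ y ∈ Y, LinearMap.ker (e y) : Submodule ℝ E) ≤ KY Y := by
        refine inf_le_inf_right _ inf_le_left
      by_cases ht : Module.finrank ℝ (KY Y) + Y.card = s.card + 1
      · have h2 := hn0 ⟨Y, hY, ht⟩
        have h3 : ¬ ∀ u ∈ KY Y, n0 ⬝ᵥ e a u = 0 := h2
        push Not at h3
        obtain ⟨u, hu, hu'⟩ := h3
        have hlt : (K ⊓ LinearMap.ker ((dotProductBilin ℝ ℝ n0).comp (e a)) ⊓
          ⨅ y ∈ Y, LinearMap.ker (e y) : Submodule ℝ E) < KY Y := by
          refine lt_of_le_of_ne hle fun h => hu' ?_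
          rw [← h] at hu
          exact LinearMap.mem_ker.1 hu.1.2
        have := Submodule.finrank_lt_finrank_of_lt hlt
        omega
      · have h4 : Module.finrank ℝ (KY Y) + Y.card ≤ s.card + 1 := h1
        have := Submodule.finrank_mono hle
        omega)
    refine ⟨Function.update n a n0, fun u hu h => hn u ⟨hu, ?_⟩ fun v hv => ?_⟩
    · have := h a (mem_insert_self a s)
      rw [Function.update_self] at this
      exact LinearMap.mem_ker.2 this
    · have := h v (mem_insert_of_mem hv)
      rwa [Function.update_of_ne (by rintro rfl; exact ha hv)] at this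

section s1

variable {W : Type} [Fintype W] [DecidableEq W]

/-- the values at a vertex -/
def ev (w : W) : (W → Fin 3 → ℝ) →ₗ[ℝ] (Fin 3 → ℝ) := LinearMap.proj w

/-- the constraints of the motions which vanish on `Y` -/
noncomputable def LY (X : SimpleGraph W) (Y : Finset W) (p : W → Fin 3 → ℝ) :
    (W → Fin 3 → ℝ) →ₗ[ℝ] ((W × W → ℝ) × (Y → Fin 3 → ℝ)) :=
  (TA.rig X p).prod (LinearMap.funLeft ℝ (Fin 3 → ℝ) (Subtype.val : Y → W))

theorem ker_LY (X : SimpleGraph W) (Y : Finset W) (p : W → Fin 3 → ℝ) :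
    LinearMap.ker (LY X Y p) = Mot X p ⊓ ⨅ y ∈ Y, LinearMap.ker (ev y) := by
  ext u
  rw [Submodule.mem_inf, Submodule.mem_iInf, LinearMap.mem_ker]
  constructor
  · intro h
    refine ⟨LinearMap.mem_ker.2 (congrArg Prod.fst h), fun y => ?_⟩
    rw [Submodule.mem_iInf]
    intro hy
    exact LinearMap.mem_ker.2 (congrFun (congrArg Prod.snd h) ⟨y, hy⟩)
  · rintro ⟨h1, h2⟩
    refine Prod.ext (LinearMap.mem_ker.1 h1) ?_
    funext y
    have := h2 y.1
    rw [Submodule.mem_iInf] at this
    exact LinearMap.mem_ker.1 (this y.2)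

theorem LY_line (X : SimpleGraph W) (Y : Finset W) (p p' : W → Fin 3 → ℝ) (s : ℝ) :
    LY X Y (p + s • p') = LY X Y p + s • (TA.rig X p').prod 0 := by
  unfold LY
  rw [TA.rig_line]
  refine LinearMap.ext fun u => ?_
  simp [LinearMap.prod_apply]

theorem good_LY (X : SimpleGraph W) (Y : Finset W) (c : ℕ) :
    TA.Good (fun p : W → Fin 3 → ℝ => Module.finrank ℝ (LinearMap.ker (LY X Y p)) + Y.card ≤ c) := by
  intro p0 p1 h0
  refine (TA.rank_good (LY X Y p0) ((TA.rig X (p1 - p0)).prod 0)).subset ?_
  intro s hs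
  rw [Set.mem_ofPred_eq] at hs ⊢
  beta_reduce at hs h0
  rw [← LY_line]
  have e1 := LinearMap.finrank_range_add_finrank_ker (LY X Y p0)
  have e2 := LinearMap.finrank_range_add_finrank_ker (LY X Y (p0 + s • (p1 - p0)))
  omega

/-- a criterion -/
theorem s1_of_dim (X : SimpleGraph W) (h : ∀ Y : Finset W, ∃ p : W → Fin 3 → ℝ,
    Module.finrank ℝ (LinearMap.ker (LY X Y p)) + Y.card ≤ Fintype.card W) : S1 X := by
  obtain ⟨p, hp⟩ := TA.good_family (E := W → Fin 3 → ℝ) (ι := Finset W)
    (fun Y p => Module.finrank ℝ (LinearMap.ker (LY X Y p)) + Y.card ≤ Fintype.card W)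
    (fun Y => good_LY X Y _) h
  obtain ⟨n, hn⟩ := exists_normals (E := W → Fin 3 → ℝ) (ev (W := W)) univ (Mot X p) (by
    intro Y _
    rw [← ker_LY, card_univ]
    exact hp Y)
  refine ⟨p, n, ?_⟩
  rw [L1_inj]
  intro u hu h
  exact hn u ((mem_mot _ _ _).2 hu) (fun v _ => h v)

theorem skew2 {A : Matrix (Fin 2) (Fin 2) ℝ} (hA : Aᵀ = -A) {x : Fin 2 → ℝ} (hx : x ≠ 0)
    (h : A *ᵥ x = 0) : A = 0 := by
  have a00 : A 0 0 = - A 0 0 := congrFun (congrFun hA 0) 0
  have a11 : A 1 1 = - A 1 1 := congrFun (congrFun hA 1) 1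
  have a01 : A 0 1 = - A 1 0 := congrFun (congrFun hA 1) 0
  have z00 : A 0 0 = 0 := by linarith
  have z11 : A 1 1 = 0 := by linarith
  have h0 := congrFun h 0
  have h1 := congrFun h 1
  simp only [mulVec, dotProduct, Fin.sum_univ_two, Pi.zero_apply, z00, z11, a01] at h0 h1
  have h10 : A 1 0 = 0 := by
    by_contra hne
    apply hx
    funext k
    fin_cases k
    · have : A 1 0 * x 0 = 0 := by linarith
      exact (mul_eq_zero.1 this).resolve_left hne
    · have : A 1 0 * x 1 = 0 := by linarith
      exact (mul_eq_zero.1 this).resolve_left hne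
  ext i j
  fin_cases i <;> fin_cases j
  · exact z00
  · show A 0 1 = 0
    rw [a01, h10, neg_zero]
  · exact h10
  · exact z11

/-- **One normal at each vertex**: graphs which are generically rigid in the plane and whose rank
in space is at least twice the number of vertices. -/
theorem s1_of_plane {X : SimpleGraph W} (hX : GenRigid 2 X)
    (hr : 2 * Fintype.card W ≤ genRank 3 X) : S1 X := by
  refine s1_of_dim X fun Y => ?_
  obtain ⟨pm, hpm⟩ := exists_mg W 3
  have hadd := genRank_add hpm X
  by_cases h2 : 2 ≤ Y.card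
  · -- a placement in a plane
    obtain ⟨p2, hp2⟩ := Pool.Agent.H283R2.DR.exists_gen W 2
    have hrig := (hp2.genRigid_iff X).1 hX
    rw [rigidOn_univ_iff] at hrig
    refine ⟨fun w => ![p2 w 0, p2 w 1, 0], ?_⟩
    obtain ⟨y1, hy1, y2, hy2, hne⟩ := Finset.one_lt_card.1 h2
    have hpne : p2 y1 ≠ p2 y2 := by
      intro h
      have h3 := hp2.pos 2 ![y1, y2] (by norm_num) (by
        intro i j hij
        fin_cases i <;> fin_cases j
        · rfl
        · exact absurd hij hne
        · exact absurd hij.symm hne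
        · rfl)
      have h4 := h3.injective (a₁ := 0) (a₂ := 1) (by simpa using h)
      exact absurd h4 (by decide)
    let R : (LinearMap.ker (LY X Y (fun w => ![p2 w 0, p2 w 1, 0]))) →ₗ[ℝ]
        ((Yᶜ : Finset W) → ℝ) :=
      { toFun := fun u w => u.1 w.1 2
        map_add' := fun _ _ => rfl
        map_smul' := fun _ _ => rfl }
    have hinj : Function.Injective R := by
      rw [← LinearMap.ker_eq_bot, LinearMap.ker_eq_bot']
      rintro ⟨u, hu⟩ hR
      apply Subtype.ext
      show u = 0
      rw [ker_LY, Submodule.mem_inf, mem_mot] at hu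
      obtain ⟨hu1, hu2⟩ := hu
      have huY : ∀ y ∈ Y, u y = 0 := by
        intro y hy
        rw [Submodule.mem_iInf] at hu2
        have := hu2 y
        rw [Submodule.mem_iInf] at this
        exact LinearMap.mem_ker.1 (this hy)
      obtain ⟨A, b, hA, hb⟩ := hrig (fun w => ![u w 0, u w 1]) (by
        intro v w hvw
        have := hu1 v w hvw
        simp [dotProduct, Fin.sum_univ_three] at this
        simp [dotProduct, Fin.sum_univ_two]
        linarith)
      have hz : ∀ y ∈ Y, A *ᵥ p2 y + b = 0 := by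
        intro y hy
        rw [← hb y, huY y hy]
        funext k
        fin_cases k <;> rfl
      have hA0 : A = 0 := by
        refine skew2 hA (sub_ne_zero.2 hpne) ?_
        rw [mulVec_sub]
        have e1 := hz y1 hy1
        have e2 := hz y2 hy2
        have : A *ᵥ p2 y1 - A *ᵥ p2 y2 = (A *ᵥ p2 y1 + b) - (A *ᵥ p2 y2 + b) := by abel
        rw [this, e1, e2, sub_zero]
      have hb0 : b = 0 := by
        have := hz y1 hy1
        rw [hA0, zero_mulVec, zero_add] at this
        exact this
      funext w k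
      have hw := hb w
      rw [hA0, hb0, zero_mulVec, zero_add] at hw
      fin_cases k
      · exact congrFun hw 0
      · exact congrFun hw 1
      · show u w 2 = 0
        by_cases hwY : w ∈ Y
        · rw [huY w hwY]
          rfl
        · exact congrFun hR ⟨w, mem_compl.2 hwY⟩
    have h5 := LinearMap.finrank_le_finrank_of_injective hinj
    rw [Module.finrank_fintype_fun_eq_card, Fintype.card_coe, card_compl] at h5
    have h6 := card_le_univ Y
    omega
  · refine ⟨pm, ?_⟩
    rcases Nat.lt_or_ge Y.card 1 with h1 | h1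
    · have hY : Y = ∅ := card_eq_zero.1 (by omega)
      subst hY
      have h3 : Module.finrank ℝ (LinearMap.ker (LY X ∅ pm)) ≤ mo X pm := by
        rw [ker_LY]
        exact Submodule.finrank_mono inf_le_left
      rw [card_empty]
      omega
    · obtain ⟨y, rfl⟩ := card_eq_one.1 (by omega : Y.card = 1)
      have h3 : LinearMap.ker (LY X {y} pm) < Mot X pm := by
        rw [ker_LY]
        refine lt_of_le_of_ne inf_le_left fun h => ?_
        have h4 : (fun _ => ![1, 0, 0] : W → Fin 3 → ℝ) ∈ Mot X pm := by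
          rw [mem_mot]
          intro u v _
          simp
        rw [← h, Submodule.mem_inf, Submodule.mem_iInf] at h4
        have h5 := h4.2 y
        rw [Submodule.mem_iInf] at h5
        have h6 := congrFun (LinearMap.mem_ker.1 (h5 (mem_singleton_self y))) 0
        simp [ev] at h6
      have h4 := Submodule.finrank_lt_finrank_of_lt h3
      have h5 : Module.finrank ℝ (Mot X pm) = mo X pm := rfl
      rw [card_singleton]
      omega

theorem rank_of_s1 {X : SimpleGraph W} (h : S1 X) : 2 * Fintype.card W ≤ genRank 3 X := by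
  obtain ⟨w, n, h⟩ := h
  obtain ⟨p, hp⟩ := exists_mg W 3
  have h1 := genRank_add hp X
  have h2 := hp.min X w
  rw [L1_inj] at h
  let R : (Mot X w) →ₗ[ℝ] (W → ℝ) := (dm n).domRestrict (Mot X w)
  have hinj : Function.Injective R := by
    rw [← LinearMap.ker_eq_bot, LinearMap.ker_eq_bot']
    rintro ⟨u, hu⟩ hR
    exact Subtype.ext (h u ((mem_mot _ _ _).1 hu) (fun v => congrFun hR v))
  have h3 := LinearMap.finrank_le_finrank_of_injective hinj
  rw [Module.finrank_fintype_fun_eq_card] at h3
  have h4 : Module.finrank ℝ (Mot X w) = mo X w := rfl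
  omega

end s1

/-! ### Test graphs -/

/-- a triangle with a pendant edge -/
def paw : SimpleGraph (Fin 4) := gr 4 [(0, 1), (0, 2), (1, 2), (0, 3)]

theorem paw_edges : paw.edgeSet.ncard = 4 := by
  unfold paw
  rw [ncard_gr]
  decide +kernel

theorem paw_connected : paw.Connected := by
  have h : ∀ x : Fin 4, paw.Reachable 0 x := by
    intro x
    fin_cases x
    · exact SimpleGraph.Reachable.refl _
    · exact SimpleGraph.Adj.reachable (by show (gr 4 _).Adj 0 1; decide +kernel)
    · exact SimpleGraph.Adj.reachable (by show (gr 4 _).Adj 0 2; decide +kernel)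
    · exact SimpleGraph.Adj.reachable (by show (gr 4 _).Adj 0 3; decide +kernel)
  exact ⟨fun x y => (h x).symm.trans (h y)⟩

theorem paw_cyclic : ¬ paw.IsAcyclic := by
  refine not_acyclic_of_card paw_connected ?_
  rw [Nat.card_coe_set_eq, paw_edges, Nat.card_eq_fintype_card, Fintype.card_fin]

theorem s1_of_paw {W : Type} [Fintype W] [DecidableEq W] {X : SimpleGraph W}
    (h : GenRigid 3 (paw □ X)) : S1 X := by
  obtain ⟨p, hp⟩ := Pool.Agent.H283R2.DR.exists_gen (Fin 4 × W) 3
  have hr := (hp.genRigid_iff _).1 h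
  rw [rigidOn_univ_iff] at hr
  refine ⟨fun w => p (3, w), fun w => p (3, w) - p (0, w), ?_⟩
  rw [L1_inj]
  intro u hu hn
  obtain ⟨A, b, hA, hb⟩ := hr (fun z => if z.1 = 3 then u z.2 else 0) (by
    rintro ⟨g, v⟩ ⟨g', v'⟩ hadj
    rw [boxProd_adj] at hadj
    rcases hadj with ⟨h1, h2⟩ | ⟨h1, h2⟩
    · simp only at h1 h2
      subst h2
      have hg : (g = 3 → g' = 0) ∧ (g' = 3 → g = 0) ∧ g ≠ g' := by
        have : ∀ g g' : Fin 4, (gr 4 [(0, 1), (0, 2), (1, 2), (0, 3)]).Adj g g' →
            (g = 3 → g' = 0) ∧ (g' = 3 → g = 0) ∧ g ≠ g' := by decide +kernel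
        exact this g g' h1
      by_cases c1 : g = 3
      · subst c1
        have c2 := hg.1 rfl
        subst c2
        have e : ¬ ((0 : Fin 4) = 3) := by decide
        simp only [if_true, e, if_false, sub_zero]
        exact hn v
      · by_cases c2 : g' = 3
        · subst c2
          have c3 := hg.2.1 rfl
          subst c3
          have e : ¬ ((0 : Fin 4) = 3) := by decide
          simp only [if_true, e, if_false, zero_sub]
          rw [dotProduct_neg, ← neg_dotProduct, neg_sub]
          exact hn v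
        · simp [c1, c2]
    · simp only at h1 h2
      subst h2
      by_cases c1 : g = 3
      · subst c1
        simpa using hu v v' h1
      · simp [c1])
  rcases isEmpty_or_nonempty W with hW | ⟨⟨w0⟩⟩
  · funext w
    exact (hW.false w).elim
  have huniq := triv_unique hp (S := ({((0 : Fin 4), w0), (1, w0), (2, w0)} :
      Finset (Fin 4 × W))) (by
    rw [card_insert_of_notMem (by simp), card_insert_of_notMem (by simp), card_singleton])
    hA (A' := 0) (b' := 0) (b := b) (by simp) (by
      intro z hz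
      rw [← hb z, zero_mulVec, add_zero]
      simp only [mem_insert, mem_singleton] at hz
      rcases hz with rfl | rfl | rfl
      · simp
      · exact if_neg (fun h : (1 : Fin 4) = 3 => absurd h (by decide))
      · exact if_neg (fun h : (2 : Fin 4) = 3 => absurd h (by decide)))
  funext w
  have := hb (3, w)
  rw [huniq.1, huniq.2, zero_mulVec, add_zero] at this
  simpa using this

/-- **Test graphs.** -/
theorem test {W : Type} [Fintype W] (X : SimpleGraph W) :
    (∀ (V : Type) [Finite V] (G : SimpleGraph V), G.Connected → ¬ G.IsAcyclic →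
      GenRigid 3 (G □ X)) ↔
    GenRigid 3 ((⊤ : SimpleGraph (Fin 3)) □ X) ∧ GenRigid 3 (paw □ X) := by
  classical
  constructor
  · intro h
    exact ⟨h _ _ top3_connected top3_cyclic, h _ _ paw_connected paw_cyclic⟩
  · rintro ⟨h1, h2⟩ V _ G hG hc
    exact step hG hc (s1_of_paw h2) h1

/-- **Products of a graph which is rigid in the plane with all graphs which contain a cycle.** -/
theorem all_cyclic {W : Type} [Fintype W] {X : SimpleGraph W} (hX : GenRigid 2 X) :
    (∀ (V : Type) [Finite V] (G : SimpleGraph V), G.Connected → ¬ G.IsAcyclic →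
      GenRigid 3 (G □ X)) ↔ 2 * Fintype.card W ≤ genRank 3 X := by
  classical
  constructor
  · intro h
    exact rank_of_s1 (s1_of_paw (h _ _ paw_connected paw_cyclic))
  · intro hr V _ G hG hc
    have hs := s1_of_plane hX hr
    refine step hG hc hs ?_
    rcases Nat.lt_or_ge (Fintype.card W) 2 with h2 | h2
    · -- at most one vertex
      have hE : X.edgeSet.ncard = 0 := by
        have : X = ⊥ := by
          ext a b
          simp only [bot_adj, iff_false]
          intro hab
          have : Subsingleton W := Fintype.card_le_one_iff_subsingleton.1 (by omega)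
          exact hab.ne (Subsingleton.elim a b)
        rw [this]
        simp
      have h4 := rank_le X
      have h5 : Fintype.card W = 0 := by omega
      have : IsEmpty W := Fintype.card_eq_zero_iff.1 h5
      refine ⟨0, fun q _ => ⟨0, 0, by simp, fun v => ?_⟩⟩
      exact (IsEmpty.false v.2).elim
    · obtain ⟨I, hI, hIt⟩ := exists_tf hX h2
      have h3 := tri_prod hIt hI
      have h4 := rank_le X
      rw [rank_of_rigid (by rw [Fintype.card_prod, Fintype.card_fin]; omega), h3,
        Fintype.card_prod, Fintype.card_fin, min_eq_left (by omega)]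
      omega

theorem paw_eq : paw = SimpleGraph.fromEdgeSet
    {s((0 : Fin 4), 1), s(0, 2), s(1, 2), s(0, 3)} := by
  ext a b
  rw [fromEdgeSet_adj]
  have h : ∀ a b : Fin 4, (gr 4 [(0, 1), (0, 2), (1, 2), (0, 3)]).Adj a b ↔
      (s(a, b) = s((0 : Fin 4), 1) ∨ s(a, b) = s(0, 2) ∨ s(a, b) = s(1, 2) ∨ s(a, b) = s(0, 3)) ∧
      a ≠ b := by
    decide +kernel
  exact h a b

/-- **Rigidity of the product of two graphs which are generically rigid in the plane.** -/
theorem rigid_prod_iff {V W : Type} [Fintype V] [Fintype W] {G : SimpleGraph V}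
    {X : SimpleGraph W} (hG : GenRigid 2 G) (hX : GenRigid 2 X) (h3 : 3 ≤ Fintype.card V)
    (h3' : 3 ≤ Fintype.card W) :
    GenRigid 3 (G □ X) ↔ 3 ≤ (Fintype.card V - 3) * (Fintype.card W - 3) ∨
        2 * Fintype.card V - 3 < G.edgeSet.ncard ∨ 2 * Fintype.card W - 3 < X.edgeSet.ncard := by
  classical
  obtain ⟨g1, g2⟩ := rank_ge_plane hG (by omega)
  obtain ⟨x1, x2⟩ := rank_ge_plane hX (by omega)
  have g3 := rank_le G
  have x3 := rank_le X
  have h9 : 3 * 3 ≤ Fintype.card V * Fintype.card W := Nat.mul_le_mul h3 h3'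
  rw [rank_of_rigid (by rw [Fintype.card_prod]; omega), rank_prod hG hX h3 h3', Fintype.card_prod,
    min_eq_left_iff]
  obtain ⟨a, ha⟩ : ∃ a, Fintype.card V = a + 3 := ⟨Fintype.card V - 3, by omega⟩
  obtain ⟨b, hb⟩ : ∃ b, Fintype.card W = b + 3 := ⟨Fintype.card W - 3, by omega⟩
  rw [ha] at g1 g2 ⊢
  rw [hb] at x1 x2 ⊢
  have e1 : 3 * ((a + 3) * (b + 3)) = 3 * (a * b) + 9 * a + 9 * b + 27 := by ring
  rw [e1]
  simp only [Nat.add_sub_cancel]
  by_cases hGe : 2 * (a + 3) - 3 < G.edgeSet.ncard
  · have r1 : 2 * a + 4 ≤ genRank 3 G := by omega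
    have r2 : 2 * b + 3 ≤ genRank 3 X := by omega
    have k1 : (b + 3) * (2 * a + 4) ≤ (b + 3) * genRank 3 G := Nat.mul_le_mul_left _ r1
    have k2 : (a + 3) * (2 * b + 3) ≤ (a + 3) * genRank 3 X := Nat.mul_le_mul_left _ r2
    have k3 : (b + 3) * (2 * a + 4) + (a + 3) * (2 * b + 3) = 4 * (a * b) + 9 * a + 10 * b + 21 := by
      ring
    simp only [hGe, true_or, or_true, iff_true]
    omega
  by_cases hXe : 2 * (b + 3) - 3 < X.edgeSet.ncard
  · have r1 : 2 * a + 3 ≤ genRank 3 G := by omega
    have r2 : 2 * b + 4 ≤ genRank 3 X := by omega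
    have k1 : (b + 3) * (2 * a + 3) ≤ (b + 3) * genRank 3 G := Nat.mul_le_mul_left _ r1
    have k2 : (a + 3) * (2 * b + 4) ≤ (a + 3) * genRank 3 X := Nat.mul_le_mul_left _ r2
    have k3 : (b + 3) * (2 * a + 3) + (a + 3) * (2 * b + 4) = 4 * (a * b) + 10 * a + 9 * b + 21 := by
      ring
    simp only [hXe, or_true, iff_true]
    omega
  have r1 : genRank 3 G = 2 * a + 3 := by omega
  have r2 : genRank 3 X = 2 * b + 3 := by omega
  rw [r1, r2]
  have k3 : (b + 3) * (2 * a + 3) + (a + 3) * (2 * b + 3) = 4 * (a * b) + 9 * a + 9 * b + 18 := by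
    ring
  rw [k3]
  simp only [hGe, hXe, or_false]
  omega

end Pool.Agent.T2H61.PP
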