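import Pool.Agent.T2H61.PP.Lam

/-!
# Tight families in graphs which are generically rigid in the plane
-/

set_option autoImplicit false
set_option linter.unusedSectionVars false

namespace Pool.Agent.T2H61.PP

open Finset Matrix Pool.Agent.H598R2.Cnt Pool.Agent.H632R2.Laman Pool.Agent.H283R2.DR

variable {W : Type} [Fintype W] [DecidableEq W]

/-- the product of a row with a motion -/
noncomputable def rp (p : W → Fin 2 → ℝ) (e : Finset W) : (W → Fin 2 → ℝ) →ₗ[ℝ] ℝ :=
  ∑ w, ∑ k, (rv p e w k) • ((LinearMap.proj k : (Fin 2 → ℝ) →ₗ[ℝ] ℝ).comp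
    (LinearMap.proj w : (W → Fin 2 → ℝ) →ₗ[ℝ] (Fin 2 → ℝ)))

theorem rp_apply (p : W → Fin 2 → ℝ) (e : Finset W) (q : W → Fin 2 → ℝ) :
    rp p e q = ∑ w, ∑ k, rv p e w k * q w k := by
  unfold rp
  simp [LinearMap.sum_apply]

theorem rp_pair (p : W → Fin 2 → ℝ) {a b : W} (hab : a ≠ b) (q : W → Fin 2 → ℝ) :
    rp p {a, b} q = (p a - p b) ⬝ᵥ (q a - q b) := by
  rw [rp_apply]
  have h1 : ∀ w, w ∉ ({a, b} : Finset W) → ∑ k, rv p {a, b} w k * q w k = 0 := by
    intro w hw
    rw [rv_of_notMem p hw]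
    simp
  rw [← Finset.sum_subset (Finset.subset_univ ({a, b} : Finset W)) (fun w _ hw => h1 w hw),
    Finset.sum_pair hab, rv_pair p hab, rv_pair p hab, if_pos rfl, if_neg hab.symm, if_pos rfl]
  simp only [dotProduct, Fin.sum_univ_two, Pi.sub_apply]
  ring

/-- rows only matter up to their span -/
theorem rp_eq_zero_of_span {p : W → Fin 2 → ℝ} {B : Set (Finset W)} {e : Finset W}
    (he : rv p e ∈ Submodule.span ℝ (rv p '' B)) {q : W → Fin 2 → ℝ}
    (hq : ∀ f ∈ B, rp p f q = 0) : rp p e q = 0 := by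
  rw [rp_apply]
  let L : (W → Fin 2 → ℝ) →ₗ[ℝ] ℝ := ∑ w, ∑ k, (q w k) •
    ((LinearMap.proj k : (Fin 2 → ℝ) →ₗ[ℝ] ℝ).comp
    (LinearMap.proj w : (W → Fin 2 → ℝ) →ₗ[ℝ] (Fin 2 → ℝ)))
  have hL : ∀ r : W → Fin 2 → ℝ, L r = ∑ w, ∑ k, r w k * q w k := by
    intro r
    simp only [L, LinearMap.sum_apply, LinearMap.smul_apply, LinearMap.comp_apply,
      LinearMap.proj_apply, smul_eq_mul]
    exact sum_congr rfl fun w _ => sum_congr rfl fun k _ => mul_comm _ _
  rw [← hL]
  have h1 : Submodule.span ℝ (rv p '' B) ≤ LinearMap.ker L := by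
    rw [Submodule.span_le]
    rintro _ ⟨f, hf, rfl⟩
    show L (rv p f) = 0
    rw [hL, ← rp_apply]
    exact hq f hf
  exact h1 he

/-- the rigid motions of the plane -/
noncomputable def tr2 (p : W → Fin 2 → ℝ) : (Fin 3 → ℝ) →ₗ[ℝ] (W → Fin 2 → ℝ) where
  toFun c w := ![- c 0 * p w 1 + c 1, c 0 * p w 0 + c 2]
  map_add' c c' := by
    funext w k
    fin_cases k
    · simp
      ring
    · simp
      ring
  map_smul' s c := by
    funext w k
    fin_cases k
    · simp
      ring
    · simp
      ring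

/-- A graph which is generically rigid in the plane contains a tight spanning family. -/
theorem exists_tf {X : SimpleGraph W} (h : GenRigid 2 X) (h2 : 2 ≤ Fintype.card W) :
    ∃ I ⊆ pr X, Tf I univ := by
  obtain ⟨p, hp⟩ := h
  obtain ⟨B, hB1, -, hspan, hB⟩ := exists_linearIndepOn_extension
    (linearIndepOn_empty ℝ (rv p)) (Set.empty_subset (pr X : Set (Finset W)))
  have hfin : B.Finite := (Finset.finite_toSet (pr X)).subset hB1
  lift B to Finset (Finset W) using hfin
  have hBX : B ⊆ pr X := by exact_mod_cast hB1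
  have hBP : Pairs B := fun e he => pairs_pr X e (hBX he)
  have hBs : Sp B := sp_of_indep hBP hB
  refine ⟨B, hBX, hBP, hBs, fun e _ => subset_univ e, ?_⟩
  have hle := hBs univ (by rw [card_univ]; exact h2)
  have hins : ins B univ = B.card := by
    unfold ins
    rw [Finset.filter_true_of_mem (fun e _ => subset_univ e)]
  rw [hins] at hle
  let R : (W → Fin 2 → ℝ) →ₗ[ℝ] (B → ℝ) := LinearMap.pi fun e => rp p e.1
  have h1 := LinearMap.finrank_range_add_finrank_ker R
  have h3 : Module.finrank ℝ (LinearMap.range R) ≤ B.card := by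
    refine (Submodule.finrank_le _).trans ?_
    rw [Module.finrank_fintype_fun_eq_card, Fintype.card_coe]
  have h4 : LinearMap.ker R ≤ LinearMap.range (tr2 p) := by
    intro q hq
    have hq0 : ∀ f ∈ (B : Set (Finset W)), rp p f q = 0 := by
      intro f hf
      exact congrFun (LinearMap.mem_ker.1 hq) ⟨f, hf⟩
    obtain ⟨A, b, hA, hb⟩ := hp q (by
      intro u v huv
      rw [← rp_pair p huv.ne]
      exact rp_eq_zero_of_span (hspan ⟨{u, v}, pair_mem_pr.2 huv, rfl⟩) hq0)
    refine ⟨![A 1 0, b 0, b 1], ?_⟩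
    have a00 : A 0 0 = - A 0 0 := congrFun (congrFun hA 0) 0
    have a11 : A 1 1 = - A 1 1 := congrFun (congrFun hA 1) 1
    have a01 : A 0 1 = - A 1 0 := congrFun (congrFun hA 1) 0
    have z00 : A 0 0 = 0 := by linarith
    have z11 : A 1 1 = 0 := by linarith
    funext w k
    rw [hb w]
    fin_cases k
    · show - A 1 0 * p w 1 + b 0 = (A *ᵥ p w) 0 + b 0
      simp only [mulVec, dotProduct, Fin.sum_univ_two]
      rw [z00, a01]
      ring
    · show A 1 0 * p w 0 + b 1 = (A *ᵥ p w) 1 + b 1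
      simp only [mulVec, dotProduct, Fin.sum_univ_two]
      rw [z11]
      ring
  have h5 : Module.finrank ℝ (LinearMap.ker R) ≤ 3 := by
    refine (Submodule.finrank_mono h4).trans ((LinearMap.finrank_range_le _).trans ?_)
    simp
  have h6 : Module.finrank ℝ (W → Fin 2 → ℝ) = 2 * Fintype.card W := by
    rw [Module.finrank_pi_fintype]
    simp [mul_comm]
  rw [card_univ] at hle ⊢
  omega

/-- The same with a given tight family. -/
theorem exists_tf_rel {X : SimpleGraph W} (h : GenRigid 2 X) {S0 : Finset W}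
    {I0 : Finset (Finset W)} (hI0 : I0 ⊆ pr X) (h0 : Tf I0 S0) :
    ∃ I ⊆ pr X, I0 ⊆ I ∧ Tf I univ := by
  have h2 : 2 ≤ Fintype.card W := h0.two_le.trans (card_le_univ _)
  obtain ⟨B, hB, hBt⟩ := exists_tf h h2
  obtain ⟨I, hI1, hI2⟩ := exists_maxl hI0 h0.sp
  have h3 := hI2.card_le (pairs_pr X) hB hBt.sp
  have h4 := hI2.2.1 univ (by rw [card_univ]; exact h2)
  have hins : ins I univ = I.card := by
    unfold ins
    rw [Finset.filter_true_of_mem (fun e _ => subset_univ e)]
  have h5 := hBt.card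
  refine ⟨I, hI2.1, hI1, fun e he => pairs_pr X e (hI2.1 he), hI2.2.1, fun e _ => subset_univ e, ?_⟩
  omega

section map

variable {U : Type} [Fintype U] [DecidableEq U]

/-- the image of a tight family -/
theorem Tf.map {I : Finset (Finset U)} {S : Finset U} (h : Tf I S) (f : U ↪ W) :
    Tf (I.image (fun e => e.map f)) (S.map f) := by
  have hinj : Function.Injective (fun e : Finset U => e.map f) := fun a b hab =>
    Finset.map_injective f hab
  refine ⟨?_, ?_, ?_, ?_⟩
  · intro e he
    obtain ⟨e', he', rfl⟩ := mem_image.1 he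
    rw [card_map]
    exact h.pairs e' he'
  · intro X hX
    set Y : Finset U := univ.filter (fun u => f u ∈ X) with hY
    have h1 : ins (I.image (fun e => e.map f)) X ≤ ins I Y := by
      unfold ins
      rw [← Finset.card_image_of_injective (I.filter (· ⊆ Y)) hinj]
      refine card_le_card ?_
      intro e he
      obtain ⟨he1, he2⟩ := mem_filter.1 he
      obtain ⟨e', he', rfl⟩ := mem_image.1 he1
      refine mem_image.2 ⟨e', mem_filter.2 ⟨he', fun u hu => ?_⟩, rfl⟩
      rw [hY, mem_filter]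
      exact ⟨mem_univ _, he2 (mem_map_of_mem f hu)⟩
    have h2 : Y.card ≤ X.card := by
      rw [← card_map f]
      refine card_le_card ?_
      intro w hw
      obtain ⟨u, hu, rfl⟩ := mem_map.1 hw
      exact (mem_filter.1 hu).2
    by_cases hc : 2 ≤ Y.card
    · have := h.sp Y hc
      omega
    · have : ins I Y = 0 := by
        unfold ins
        rw [Finset.card_eq_zero, Finset.filter_eq_empty_iff]
        intro e he heY
        have := card_le_card heY
        have := h.pairs e he
        omega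
      omega
  · intro e he
    obtain ⟨e', he', rfl⟩ := mem_image.1 he
    exact map_subset_map.2 (h.sub e' he')
  · rw [card_image_of_injective _ hinj, card_map]
    exact h.card

theorem map_pr {X0 : SimpleGraph U} {X : SimpleGraph W} (f : U ↪ W) (hf : X0.map f ≤ X)
    {I : Finset (Finset U)} (hI : I ⊆ pr X0) : I.image (fun e => e.map f) ⊆ pr X := by
  intro e he
  obtain ⟨e', he', rfl⟩ := mem_image.1 he
  obtain ⟨h1, h2⟩ := mem_pr.1 (hI he')
  rw [mem_pr, card_map]
  refine ⟨h1, ?_⟩
  intro a ha b hb hab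
  obtain ⟨a', ha', rfl⟩ := mem_map.1 ha
  obtain ⟨b', hb', rfl⟩ := mem_map.1 hb
  exact hf (SimpleGraph.map_adj_apply.2 (h2 a' ha' b' hb' (fun h => hab (by rw [h]))))

end map

end Pool.Agent.T2H61.PP
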