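import Pool.Agent.T2H61.PP.Cert

/-!
# The minimally rigid graphs in the plane with at most six vertices
-/

set_option autoImplicit false

namespace Pool.Agent.T2H61.PP

def g2a : List (ℕ × ℕ) := [(0, 1)]
def g3a : List (ℕ × ℕ) := [(0, 1), (0, 2), (1, 2)]
def g4a : List (ℕ × ℕ) := [(0, 1), (0, 2), (0, 3), (1, 2), (1, 3)]
def g5a : List (ℕ × ℕ) := [(0, 1), (0, 2), (0, 3), (0, 4), (1, 2), (1, 3), (1, 4)]
def g5b : List (ℕ × ℕ) := [(0, 1), (0, 2), (0, 3), (0, 4), (1, 2), (1, 3), (2, 4)]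
def g5c : List (ℕ × ℕ) := [(0, 1), (0, 2), (0, 3), (1, 2), (1, 3), (2, 4), (3, 4)]
def g6a : List (ℕ × ℕ) := [(0, 1), (0, 2), (0, 3), (0, 4), (0, 5), (1, 2), (1, 3), (1, 4), (1, 5)]
def g6b : List (ℕ × ℕ) := [(0, 1), (0, 2), (0, 3), (0, 4), (0, 5), (1, 2), (1, 3), (1, 4), (2, 5)]
def g6c : List (ℕ × ℕ) := [(0, 1), (0, 2), (0, 3), (0, 4), (1, 2), (1, 3), (1, 4), (2, 5), (3, 5)]
def g6d : List (ℕ × ℕ) := [(0, 2), (0, 3), (0, 4), (0, 5), (1, 2), (1, 3), (1, 4), (1, 5), (2, 5)]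
def g6e : List (ℕ × ℕ) := [(0, 1), (0, 3), (0, 4), (0, 5), (1, 2), (1, 3), (1, 4), (2, 5), (3, 5)]
def g6f : List (ℕ × ℕ) := [(0, 1), (0, 2), (0, 3), (0, 4), (0, 5), (1, 2), (1, 3), (2, 4), (3, 5)]
def g6g : List (ℕ × ℕ) := [(0, 1), (0, 2), (0, 3), (0, 4), (1, 2), (1, 3), (1, 5), (2, 4), (2, 5)]
def g6h : List (ℕ × ℕ) := [(0, 1), (0, 2), (0, 3), (0, 4), (1, 2), (1, 3), (1, 5), (2, 4), (3, 5)]
def g6i : List (ℕ × ℕ) := [(0, 1), (0, 2), (0, 3), (0, 4), (1, 2), (1, 3), (2, 4), (3, 5), (4, 5)]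
def g6j : List (ℕ × ℕ) := [(0, 2), (0, 3), (0, 4), (0, 5), (1, 2), (1, 3), (1, 5), (2, 4), (3, 5)]
def g6k : List (ℕ × ℕ) := [(0, 2), (0, 3), (0, 4), (0, 5), (1, 2), (1, 3), (1, 5), (2, 4), (4, 5)]
def g6l : List (ℕ × ℕ) := [(0, 2), (0, 3), (0, 5), (1, 2), (1, 3), (1, 5), (2, 4), (3, 4), (4, 5)]
def g6m : List (ℕ × ℕ) := [(0, 1), (0, 3), (0, 5), (1, 2), (1, 3), (2, 4), (2, 5), (3, 4), (4, 5)]
def k4 : List (ℕ × ℕ) := [(0, 1), (0, 2), (0, 3), (1, 2), (1, 3), (2, 3)]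
def k5a : List (ℕ × ℕ) := [(0, 2), (0, 3), (0, 4), (1, 2), (1, 3), (1, 4), (2, 4), (3, 4)]
def k5b : List (ℕ × ℕ) := [(0, 3), (0, 4), (1, 2), (1, 3), (1, 4), (2, 3), (2, 4), (3, 4)]

/-- the minimally rigid graphs on `k` vertices -/
def can : ℕ → List (List (ℕ × ℕ))
  | 2 => [g2a]
  | 3 => [g3a]
  | 4 => [g4a]
  | 5 => [g5a, g5b, g5c]
  | 6 => [g6a, g6b, g6c, g6d, g6e, g6f, g6g, g6h, g6i, g6j, g6k, g6l, g6m]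
  | _ => []

end Pool.Agent.T2H61.PP
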