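import Pool.Agent.H283R2.DR.GenExists

/-!
# Certificates for the rigidity of small Cartesian products in three-space

A placement at integer points, and for each unpinned coordinate an integer combination of the edge
constraints which is congruent modulo 101 to this coordinate.
-/

set_option autoImplicit false

namespace Pool.Agent.T2H61.PP

open Matrix Finset Pool.Agent.H283R2.DR

/-- adjacency of a list of pairs -/
def adjb (E : List (ℕ × ℕ)) (a b : ℕ) : Bool := E.contains (a, b) || E.contains (b, a)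

/-- the graph of a list of pairs -/
def gr (k : ℕ) (E : List (ℕ × ℕ)) : SimpleGraph (Fin k) where
  Adj a b := a ≠ b ∧ adjb E a b = true
  symm := ⟨fun a b h => ⟨h.1.symm, by unfold adjb at *; rw [Bool.or_comm]; exact h.2⟩⟩
  loopless := ⟨fun _ h => h.1 rfl⟩

/-- edge numbers (`0` if not adjacent) -/
def tb (T m a b : ℕ) : ℕ := (T >>> (5 * (m * a + b))) % 32

/-- coordinates -/
def pos (pn n a v k : ℕ) : ℕ := (pn >>> (4 * (k + 3 * (v + n * a)))) % 16

/-- coefficients -/
def om (r s : ℕ) : ℕ := (r >>> (7 * s)) % 128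

/-- sums -/
def sm : ℕ → (ℕ → ℕ) → ℕ
  | 0, _ => 0
  | k + 1, f => sm k f + f k

/-- conjunctions -/
def al : ℕ → (ℕ → Bool) → Bool
  | 0, _ => true
  | k + 1, f => f k && al k f

theorem sm_eq (k : ℕ) (f : ℕ → ℕ) : sm k f = ∑ i : Fin k, f i := by
  induction k with
  | zero => simp [sm]
  | succ k ih => rw [sm, ih, Fin.sum_univ_castSucc]; rfl

theorem al_eq (k : ℕ) (f : ℕ → Bool) : al k f = true ↔ ∀ i < k, f i = true := by
  induction k with
  | zero => simp [al]
  | succ k ih =>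
    rw [al, Bool.and_eq_true, ih]
    constructor
    · rintro ⟨h1, h2⟩ i hi
      rcases Nat.lt_succ_iff_lt_or_eq.1 hi with h | rfl
      · exact h2 i h
      · exact h1
    · intro h
      exact ⟨h k (Nat.lt_succ_self k), fun i hi => h i (Nat.lt_succ_of_lt hi)⟩

/-- contribution of the first factor -/
def tG (TG pn m n r a v k a' : ℕ) : ℕ :=
  bif Nat.beq (tb TG m a a') 0 then 0 else
    om r (n * tb TG m a a' + v) * (pos pn n a v k + 101 - pos pn n a' v k)

/-- contribution of the second factor -/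
def tX (TX pn m n r a v k v' : ℕ) : ℕ :=
  bif Nat.beq (tb TX n v v') 0 then 0 else
    om r (16 * n + m * tb TX n v v' + a) * (pos pn n a v k + 101 - pos pn n a v' k)

/-- the coefficient of coordinate `k` of `(a, v)` -/
def F (TG TX pn m n r a v k : ℕ) : ℕ :=
  sm m (fun a' => tG TG pn m n r a v k a') + sm n (fun v' => tX TX pn m n r a v k v')

/-- the unpinned coordinates -/
def col (j : ℕ) : ℕ := bif Nat.beq j 0 then 3 else bif Nat.beq j 1 then 6 else
  bif Nat.beq j 2 then 7 else j + 6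

/-- the check of one table of edge numbers -/
def okT (T m : ℕ) (E : List (ℕ × ℕ)) : Bool :=
  al m (fun a => al m (fun b => (Nat.beq (tb T m a b) (tb T m b a)) &&
    (Nat.beq (tb T m a b) 0 || (adjb E a b && !(Nat.beq a b)))))

/-- the check of the matrix -/
def okM (TG TX pn m n : ℕ) (lr : List ℕ) : Bool :=
  al (m * n * 3 - 6) (fun i => al (m * n * 3 - 6) (fun j =>
    Nat.beq (F TG TX pn m n (lr.getD i 0) (col j / 3 / n) (col j / 3 % n) (col j % 3) % 101)
      (bif Nat.beq i j then 1 else 0)))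

/-- the check of the pinned vertices -/
def okP (pn n : ℕ) : Bool :=
  Nat.beq (pos pn n 0 0 0) 0 && (Nat.beq (pos pn n 0 0 1) 0 && (Nat.beq (pos pn n 0 0 2) 0 &&
  (Nat.beq (pos pn n 0 1 0) 1 && (Nat.beq (pos pn n 0 1 1) 0 && (Nat.beq (pos pn n 0 1 2) 0 &&
  (Nat.beq (pos pn n 0 2 0) 0 && (Nat.beq (pos pn n 0 2 1) 1 && Nat.beq (pos pn n 0 2 2) 0)))))))

/-- integer value of a contribution -/
def ZG (TG pn m n r a v k a' : ℕ) : ℤ :=
  (if tb TG m a a' = 0 then 0 else (om r (n * tb TG m a a' + v) : ℤ)) *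
    ((pos pn n a v k : ℤ) - pos pn n a' v k)

def ZX (TX pn m n r a v k v' : ℕ) : ℤ :=
  (if tb TX n v v' = 0 then 0 else (om r (16 * n + m * tb TX n v v' + a) : ℤ)) *
    ((pos pn n a v k : ℤ) - pos pn n a v' k)

def Z (TG TX pn m n r a v k : ℕ) : ℤ :=
  (∑ a' : Fin m, ZG TG pn m n r a v k a') + ∑ v' : Fin n, ZX TX pn m n r a v k v'

theorem pos_lt (pn n a v k : ℕ) : pos pn n a v k < 16 := Nat.mod_lt _ (by norm_num)

theorem cast_sub101 (x y : ℕ) (hy : y < 16) :
    ((x + 101 - y : ℕ) : ZMod 101) = (x : ZMod 101) - y := by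
  have h101 : ((101 : ℕ) : ZMod 101) = 0 := ZMod.natCast_self 101
  rw [Nat.cast_sub (by omega), Nat.cast_add, h101, add_zero]

theorem beq_iff (a b : ℕ) : Nat.beq a b = true ↔ a = b :=
  ⟨Nat.eq_of_beq_eq_true, fun h => h ▸ Nat.beq_refl a⟩

theorem beq_false (a b : ℕ) : Nat.beq a b = false ↔ a ≠ b := by
  rw [← Bool.not_eq_true, beq_iff]

theorem tG_cast (TG pn m n r a v k a' : ℕ) :
    ((tG TG pn m n r a v k a' : ℕ) : ZMod 101) = ((ZG TG pn m n r a v k a' : ℤ) : ZMod 101) := by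
  unfold tG ZG
  by_cases h : tb TG m a a' = 0
  · have : Nat.beq (tb TG m a a') 0 = true := (beq_iff _ _).2 h
    rw [this, if_pos h]
    simp
  · have : Nat.beq (tb TG m a a') 0 = false := (beq_false _ _).2 h
    rw [this, if_neg h, cond_false, Nat.cast_mul, cast_sub101 _ _ (pos_lt _ _ _ _ _)]
    push_cast
    rfl

theorem tX_cast (TX pn m n r a v k v' : ℕ) :
    ((tX TX pn m n r a v k v' : ℕ) : ZMod 101) = ((ZX TX pn m n r a v k v' : ℤ) : ZMod 101) := by
  unfold tX ZX
  by_cases h : tb TX n v v' = 0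
  · have : Nat.beq (tb TX n v v') 0 = true := (beq_iff _ _).2 h
    rw [this, if_pos h]
    simp
  · have : Nat.beq (tb TX n v v') 0 = false := (beq_false _ _).2 h
    rw [this, if_neg h, cond_false, Nat.cast_mul, cast_sub101 _ _ (pos_lt _ _ _ _ _)]
    push_cast
    rfl

theorem F_cast (TG TX pn m n r a v k : ℕ) :
    ((F TG TX pn m n r a v k : ℕ) : ZMod 101) = ((Z TG TX pn m n r a v k : ℤ) : ZMod 101) := by
  unfold F Z
  rw [sm_eq, sm_eq]
  push_cast
  congr 1
  · exact sum_congr rfl fun a' _ => by rw [tG_cast]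
  · exact sum_congr rfl fun a' _ => by rw [tX_cast]

theorem symk {k : ℕ} (ω : Fin k → Fin k → ℝ) (hω : ∀ a a', ω a a' = ω a' a)
    (x y : Fin k → Fin 3 → ℝ) (h : ∀ a a', ω a a' ≠ 0 → (x a - x a') ⬝ᵥ (y a - y a') = 0) :
    ∑ a, ∑ c, (∑ a', ω a a' * (x a c - x a' c)) * y a c = 0 := by
  set T : ℝ := ∑ a, ∑ a', ω a a' * ((x a - x a') ⬝ᵥ y a) with hT
  have e1 : ∑ a, ∑ c, (∑ a', ω a a' * (x a c - x a' c)) * y a c = T := by
    rw [hT]
    refine sum_congr rfl fun a _ => ?_
    simp only [sum_mul, dotProduct, mul_sum, Pi.sub_apply]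
    rw [sum_comm]
    exact sum_congr rfl fun a' _ => sum_congr rfl fun c _ => by ring
  have e2 : T = - ∑ a, ∑ a', ω a a' * ((x a - x a') ⬝ᵥ y a') := by
    rw [hT, sum_comm, ← sum_neg_distrib]
    refine sum_congr rfl fun a _ => ?_
    rw [← sum_neg_distrib]
    refine sum_congr rfl fun a' _ => ?_
    rw [hω a' a, ← neg_sub (x a) (x a'), neg_dotProduct]
    ring
  have e3 : T - ∑ a, ∑ a', ω a a' * ((x a - x a') ⬝ᵥ y a') = 0 := by
    rw [hT, ← sum_sub_distrib]
    refine sum_eq_zero fun a _ => ?_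
    rw [← sum_sub_distrib]
    refine sum_eq_zero fun a' _ => ?_
    rw [← mul_sub, ← dotProduct_sub]
    by_cases h0 : ω a a' = 0
    · rw [h0, zero_mul]
    · rw [h a a' h0, mul_zero]
  rw [e1]
  linarith

section sound

variable {m n : ℕ} {EG EX : List (ℕ × ℕ)} {TG TX pn : ℕ}

/-- the placement -/
def pl (m n pn : ℕ) (x : Fin m × Fin n) (k : Fin 3) : ℝ := (pos pn n x.1 x.2 k : ℝ)

theorem okT_sym {T m : ℕ} {E : List (ℕ × ℕ)} (h : okT T m E = true) (a b : Fin m) :
    tb T m a b = tb T m b a ∧ (tb T m a b ≠ 0 → (gr m E).Adj a b) := by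
  have h1 := (al_eq _ _).1 ((al_eq _ _).1 h a a.2) b b.2
  rw [Bool.and_eq_true, beq_iff, Bool.or_eq_true, beq_iff, Bool.and_eq_true] at h1
  refine ⟨h1.1, fun h2 => ?_⟩
  obtain ⟨h3, h4⟩ := h1.2.resolve_left h2
  refine ⟨?_, h3⟩
  rintro rfl
  simp at h4

theorem energy (hG : okT TG m EG = true) (hX : okT TX n EX = true)
    (q : Fin m × Fin n → Fin 3 → ℝ) (hq : IsMotion (gr m EG □ gr n EX) (pl m n pn) q) (r : ℕ) :
    ∑ a : Fin m, ∑ v : Fin n, ∑ k : Fin 3, (Z TG TX pn m n r a v k : ℝ) * q (a, v) k = 0 := by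
  have s0 : ∑ a : Fin m, ∑ v : Fin n, ∑ k : Fin 3,
      ((∑ a' : Fin m, ZG TG pn m n r a v k a' : ℤ) : ℝ) * q (a, v) k = 0 := by
    rw [sum_comm]
    refine sum_eq_zero fun v _ => ?_
    have := symk (fun a a' : Fin m => if tb TG m a a' = 0 then (0 : ℝ) else
        (om r (n * tb TG m a a' + v) : ℝ)) (fun a a' => by simp only [(okT_sym hG a a').1])
      (fun a => pl m n pn (a, v)) (fun a => q (a, v)) (fun a a' h => by
        have h1 : tb TG m a a' ≠ 0 := by
          intro h2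
          apply h
          rw [if_pos h2]
        exact hq (a, v) (a', v) (by simp [(okT_sym hG a a').2 h1]))
    rw [← this]
    refine sum_congr rfl fun a _ => sum_congr rfl fun k _ => ?_
    congr 1
    rw [Int.cast_sum]
    refine sum_congr rfl fun a' _ => ?_
    simp only [ZG, pl]
    push_cast
    rfl
  have s1 : ∑ a : Fin m, ∑ v : Fin n, ∑ k : Fin 3,
      ((∑ v' : Fin n, ZX TX pn m n r a v k v' : ℤ) : ℝ) * q (a, v) k = 0 := by
    refine sum_eq_zero fun a _ => ?_
    have := symk (fun v v' : Fin n => if tb TX n v v' = 0 then (0 : ℝ) else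
        (om r (16 * n + m * tb TX n v v' + a) : ℝ))
      (fun v v' => by simp only [(okT_sym hX v v').1])
      (fun v => pl m n pn (a, v)) (fun v => q (a, v)) (fun v v' h => by
        have h1 : tb TX n v v' ≠ 0 := by
          intro h2
          apply h
          rw [if_pos h2]
        exact hq (a, v) (a, v') (by simp [(okT_sym hX v v').2 h1]))
    rw [← this]
    refine sum_congr rfl fun v _ => sum_congr rfl fun k _ => ?_
    congr 1
    rw [Int.cast_sum]
    refine sum_congr rfl fun v' _ => ?_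
    simp only [ZX, pl]
    push_cast
    rfl
  have e : ∀ (a : Fin m) (v : Fin n) (k : Fin 3), (Z TG TX pn m n r a v k : ℝ) * q (a, v) k =
      ((∑ a' : Fin m, ZG TG pn m n r a v k a' : ℤ) : ℝ) * q (a, v) k +
      ((∑ v' : Fin n, ZX TX pn m n r a v k v' : ℤ) : ℝ) * q (a, v) k := by
    intro a v k
    unfold Z
    push_cast
    ring
  simp only [e, sum_add_distrib]
  rw [s0, s1, add_zero]

/-- numbering of the coordinates -/
def num (m n : ℕ) : (Fin m × Fin n) × Fin 3 ≃ Fin (m * n * 3) :=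
  ((finProdFinEquiv (m := m) (n := n)).prodCongr (Equiv.refl (Fin 3))).trans finProdFinEquiv

theorem num_val (a : Fin m) (v : Fin n) (k : Fin 3) :
    ((num m n ((a, v), k) : Fin (m * n * 3)) : ℕ) = k + 3 * (v + n * a) := rfl

theorem col_eq (j : ℕ) : col j = if j = 0 then 3 else if j = 1 then 6 else if j = 2 then 7 else
    j + 6 := by
  unfold col
  rcases j with _ | _ | _ | j <;> rfl

theorem col_lt {N j : ℕ} (hN : 9 ≤ N) (h : j < N - 6) : col j < N := by
  rw [col_eq]
  split_ifs <;> omega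

theorem col_inj {i j : ℕ} (h : col i = col j) : i = j := by
  rw [col_eq, col_eq] at h
  split_ifs at h <;> omega

theorem col_cover {N c : ℕ} (hN : 9 ≤ N) (h : c < N) : (∃ j < N - 6, col j = c) ∨ c = 0 ∨ c = 1 ∨
    c = 2 ∨ c = 4 ∨ c = 5 ∨ c = 8 := by
  by_cases h1 : c = 0 ∨ c = 1 ∨ c = 2 ∨ c = 4 ∨ c = 5 ∨ c = 8
  · exact Or.inr h1
  · left
    push Not at h1
    obtain ⟨h0, h1, h2, h4, h5, h8⟩ := h1
    by_cases h3 : c = 3
    · exact ⟨0, by omega, by rw [col_eq, if_pos rfl, h3]⟩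
    by_cases h6 : c = 6
    · exact ⟨1, by omega, by rw [col_eq]; simp [h6]⟩
    by_cases h7 : c = 7
    · exact ⟨2, by omega, by rw [col_eq]; simp [h7]⟩
    refine ⟨c - 6, by omega, ?_⟩
    rw [col_eq]
    split_ifs <;> omega

theorem pinned {lr : List ℕ} (hm : 1 ≤ m) (hn : 3 ≤ n) (hG : okT TG m EG = true)
    (hX : okT TX n EX = true) (hM : okM TG TX pn m n lr = true)
    (q : Fin m × Fin n → Fin 3 → ℝ) (hq : IsMotion (gr m EG □ gr n EX) (pl m n pn) q)
    (h0 : q (⟨0, hm⟩, ⟨0, by omega⟩) = 0) (h1 : q (⟨0, hm⟩, ⟨1, by omega⟩) 1 = 0)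
    (h2 : q (⟨0, hm⟩, ⟨1, by omega⟩) 2 = 0) (h3 : q (⟨0, hm⟩, ⟨2, by omega⟩) 2 = 0) : q = 0 := by
  have hN : 9 ≤ m * n * 3 := by
    have : 1 * 3 ≤ m * n := Nat.mul_le_mul hm hn
    omega
  have hn0 : 0 < n := by omega
  set x : Fin (m * n * 3) → ℝ := fun c => q ((num m n).symm c).1 ((num m n).symm c).2 with hx
  have hxn : ∀ a v k, x (num m n ((a, v), k)) = q (a, v) k := by
    intro a v k
    rw [hx]
    simp
  set cf : Fin (m * n * 3 - 6) → Fin (m * n * 3) := fun j => ⟨col j, col_lt hN j.2⟩ with hcf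
  have cfi : Function.Injective cf := fun i j h => Fin.ext (col_inj (congrArg Fin.val h))
  have hx0 : ∀ c : Fin (m * n * 3), (¬ ∃ j, cf j = c) → x c = 0 := by
    intro c hc
    have key : ∀ (v : Fin n) (k : Fin 3), (c : ℕ) = k + 3 * (v + n * 0) → 
        q (⟨0, hm⟩, v) k = 0 → x c = 0 := by
      intro v k h h'
      have e : c = num m n ((⟨0, hm⟩, v), k) := Fin.ext (by rw [num_val]; exact h)
      rw [e, hxn]
      exact h'
    rcases col_cover hN c.2 with ⟨j, hj, hj'⟩ | h | h | h | h | h | h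
    · exact absurd ⟨⟨j, hj⟩, Fin.ext hj'⟩ hc
    · exact key ⟨0, by omega⟩ 0 (by rw [h]; simp) (congrFun h0 0)
    · exact key ⟨0, by omega⟩ 1 (by rw [h]; simp) (congrFun h0 1)
    · exact key ⟨0, by omega⟩ 2 (by rw [h]; simp) (congrFun h0 2)
    · exact key ⟨1, by omega⟩ 1 (by rw [h]; simp) h1
    · exact key ⟨1, by omega⟩ 2 (by rw [h]; simp) h2
    · exact key ⟨2, by omega⟩ 2 (by rw [h]; simp) h3
  set ZM : Matrix (Fin (m * n * 3 - 6)) (Fin (m * n * 3 - 6)) ℤ := fun i j =>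
    Z TG TX pn m n (lr.getD i 0) (col j / 3 / n) (col j / 3 % n) (col j % 3) with hZM
  have hsum : ∀ i : Fin (m * n * 3 - 6), ∑ j, (ZM i j : ℝ) * x (cf j) = 0 := by
    intro i
    have e1 : ∑ c : Fin (m * n * 3), (Z TG TX pn m n (lr.getD i 0) ((c : ℕ) / 3 / n)
        ((c : ℕ) / 3 % n) ((c : ℕ) % 3) : ℝ) * x c = 0 := by
      rw [← energy hG hX q hq (lr.getD i 0)]
      rw [← Equiv.sum_comp (num m n)]
      simp only [Fintype.sum_prod_type]
      refine sum_congr rfl fun a _ => sum_congr rfl fun v _ => sum_congr rfl fun k _ => ?_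
      rw [hxn, num_val]
      have hk := k.2
      have hv := v.2
      have e1 : ((k : ℕ) + 3 * ((v : ℕ) + n * a)) / 3 = v + n * a := by omega
      have e2 : ((k : ℕ) + 3 * ((v : ℕ) + n * a)) % 3 = k := by omega
      have e3 : ((v : ℕ) + n * a) / n = a := by
        rw [Nat.add_mul_div_left _ _ hn0, Nat.div_eq_of_lt hv, zero_add]
      have e4 : ((v : ℕ) + n * a) % n = v := by
        rw [Nat.add_mul_mod_self_left, Nat.mod_eq_of_lt hv]
      rw [e1, e2, e3, e4]
    have e2 : ∑ c : Fin (m * n * 3), (Z TG TX pn m n (lr.getD i 0) ((c : ℕ) / 3 / n)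
        ((c : ℕ) / 3 % n) ((c : ℕ) % 3) : ℝ) * x c = ∑ c ∈ univ.image cf,
        (Z TG TX pn m n (lr.getD i 0) ((c : ℕ) / 3 / n)
        ((c : ℕ) / 3 % n) ((c : ℕ) % 3) : ℝ) * x c := by
      refine (sum_subset (subset_univ _) ?_).symm
      intro c _ hc
      rw [hx0 c, mul_zero]
      rintro ⟨j, rfl⟩
      exact hc (mem_image_of_mem _ (mem_univ _))
    rw [e2, sum_image (fun a _ b _ h => cfi h)] at e1
    exact e1
  have hdet : ZM.det ≠ 0 := by
    have k1 : ZM.map (Int.castRingHom (ZMod 101)) = 1 := by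
      ext i j
      have hh := (al_eq _ _).1 ((al_eq _ _).1 hM i i.2) j j.2
      rw [beq_iff] at hh
      rw [Matrix.map_apply, Matrix.one_apply, Int.coe_castRingHom]
      show ((Z TG TX pn m n (lr.getD i 0) (col j / 3 / n) (col j / 3 % n) (col j % 3) : ℤ) :
        ZMod 101) = _
      rw [← F_cast]
      have h2 : ∀ a : ℕ, (a : ZMod 101) = ((a % 101 : ℕ) : ZMod 101) := fun a =>
        ((ZMod.natCast_eq_natCast_iff _ _ _).2 (Nat.mod_modEq a 101)).symm
      rw [h2, hh]
      by_cases hij : i = j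
      · have : Nat.beq (i : ℕ) j = true := (beq_iff _ _).2 (congrArg Fin.val hij)
        rw [this, if_pos hij]
        simp
      · have : Nat.beq (i : ℕ) j = false := (beq_false _ _).2 (fun h => hij (Fin.ext h))
        rw [this, if_neg hij]
        simp
    have h2 := RingHom.map_det (Int.castRingHom (ZMod 101)) ZM
    rw [RingHom.mapMatrix_apply, k1, det_one] at h2
    intro h
    rw [h, map_zero] at h2
    exact absurd h2 (by decide)
  have hdet' : (ZM.map (Int.castRingHom ℝ)).det ≠ 0 := by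
    have h2 := RingHom.map_det (Int.castRingHom ℝ) ZM
    rw [RingHom.mapMatrix_apply] at h2
    rw [← h2]
    simpa using hdet
  have hx1 : (fun j => x (cf j)) = 0 := by
    refine Matrix.eq_zero_of_mulVec_eq_zero hdet' ?_
    funext i
    exact hsum i
  funext v k
  have hvk : x (num m n ((v.1, v.2), k)) = q v k := hxn v.1 v.2 k
  rw [← hvk]
  by_cases h : ∃ j, cf j = num m n ((v.1, v.2), k)
  · obtain ⟨j, hj⟩ := h
    rw [← hj]
    exact congrFun hx1 j
  · exact hx0 _ h

theorem rigid_of_cert {lr : List ℕ} (hm : 1 ≤ m) (hn : 3 ≤ n) (hG : okT TG m EG = true)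
    (hX : okT TX n EX = true) (hM : okM TG TX pn m n lr = true) (hp : okP pn n = true) :
    GenRigid 3 (gr m EG □ gr n EX) := by
  refine ⟨pl m n pn, ?_⟩
  intro q hq
  have i0 : 0 < m := hm
  set u0 : Fin m × Fin n := (⟨0, hm⟩, ⟨0, by omega⟩) with hu0
  set u1 : Fin m × Fin n := (⟨0, hm⟩, ⟨1, by omega⟩) with hu1
  set u2 : Fin m × Fin n := (⟨0, hm⟩, ⟨2, by omega⟩) with hu2
  set b := q u0 with hb
  set α := (q u1 - b) 1 with hα
  set β := (q u1 - b) 2 with hβ
  set γ := (q u2 - b) 2 with hγ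
  set A : Matrix (Fin 3) (Fin 3) ℝ := !![0, -α, -β; α, 0, -γ; β, γ, 0] with hA
  have hAs : Aᵀ = -A := by
    ext i j
    fin_cases i <;> fin_cases j <;> simp [hA]
  refine ⟨A, b, hAs, ?_⟩
  simp only [okP, Bool.and_eq_true, beq_iff] at hp
  obtain ⟨p00, p01, p02, p10, p11, p12, p20, p21, p22⟩ := hp
  have hp0 : pl m n pn u0 = ![0, 0, 0] := by
    funext k
    simp only [pl, hu0]
    fin_cases k <;> simp [p00, p01, p02]
  have hp1 : pl m n pn u1 = ![1, 0, 0] := by
    funext k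
    simp only [pl, hu1]
    fin_cases k <;> simp [p10, p11, p12]
  have hp2 : pl m n pn u2 = ![0, 1, 0] := by
    funext k
    simp only [pl, hu2]
    fin_cases k <;> simp [p20, p21, p22]
  have key := pinned hm hn hG hX hM (fun v => q v - (A *ᵥ pl m n pn v + b)) ?_ ?_ ?_ ?_ ?_
  · intro v
    exact sub_eq_zero.1 (congrFun key v)
  · intro u v huv
    have h1 : (q u - (A *ᵥ pl m n pn u + b)) - (q v - (A *ᵥ pl m n pn v + b)) =
        (q u - q v) - A *ᵥ (pl m n pn u - pl m n pn v) := by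
      rw [mulVec_sub]
      abel
    rw [h1, dotProduct_sub, hq u v huv, TA.skew_dot hAs, sub_zero]
  · show q u0 - (A *ᵥ pl m n pn u0 + b) = 0
    funext k
    simp only [hp0]
    simp [hA, ← hb]
  · show (q u1 - (A *ᵥ pl m n pn u1 + b)) 1 = 0
    simp only [hp1]
    simp [hA, hα]
  · show (q u1 - (A *ᵥ pl m n pn u1 + b)) 2 = 0
    simp only [hp1]
    simp [hA, hβ]
  · show (q u2 - (A *ᵥ pl m n pn u2 + b)) 2 = 0
    simp only [hp2]
    simp [hA, hγ]

end sound

end Pool.Agent.T2H61.PP
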