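import Pool.Agent.H632R2.Laman
import Pool.Agent.H283R2.DR.GenExists

/-!
# Henneberg reductions of tight families of pairs
-/

set_option autoImplicit false
set_option linter.unusedSectionVars false

namespace Pool.Agent.T2H61.PP

open Finset Pool.Agent.H598R2.Cnt Pool.Agent.H632R2.Laman

variable {W : Type} [Fintype W] [DecidableEq W]

/-- `I` is a sparse family of pairs in `S` with `2 |S| - 3` members -/
structure Tf (I : Finset (Finset W)) (S : Finset W) : Prop where
  pairs : Pairs I
  sp : Sp I
  sub : ∀ e ∈ I, e ⊆ S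
  card : I.card + 3 = 2 * S.card

variable {I J : Finset (Finset W)} {S S0 : Finset W} {v : W}

theorem Tf.two_le (h : Tf I S) : 2 ≤ S.card := by
  have := h.card
  omega

theorem Tf.ins_erase (h : Tf I S) : ins I (S.erase v) = (I.filter (v ∉ ·)).card := by
  unfold ins
  congr 1
  ext e
  simp only [mem_filter]
  constructor
  · rintro ⟨h1, h2⟩
    exact ⟨h1, fun h => (Finset.mem_erase.1 (h2 h)).1 rfl⟩
  · rintro ⟨h1, h2⟩
    exact ⟨h1, fun x hx => Finset.mem_erase.2 ⟨by rintro rfl; exact h2 hx, h.sub e h1 hx⟩⟩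

theorem Tf.deg_ge (h : Tf I S) (h3 : 3 ≤ S.card) (hv : v ∈ S) :
    2 ≤ (I.filter (v ∈ ·)).card := by
  have h1 := h.sp (S.erase v) (by rw [card_erase_of_mem hv]; omega)
  rw [h.ins_erase, card_erase_of_mem hv] at h1
  have h2 : (I.filter (v ∈ ·)).card + (I.filter (v ∉ ·)).card = I.card :=
    Finset.card_filter_add_card_filter_not _
  have h4 := h.card
  omega

/-- `I` arises from `J` by a 0-extension at `v` -/
def Zext (I J : Finset (Finset W)) (v : W) (S : Finset W) : Prop :=
  ∃ a ∈ S, ∃ b ∈ S, a ≠ b ∧ I = J ∪ {{v, a}, {v, b}}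

/-- `I` arises from `J` by a 1-extension at `v` -/
def Oext (I J : Finset (Finset W)) (v : W) (S : Finset W) : Prop :=
  ∃ a ∈ S, ∃ b ∈ S, ∃ c ∈ S, a ≠ b ∧ a ≠ c ∧ b ≠ c ∧ {a, b} ∈ J ∧
    I = J.erase {a, b} ∪ {{v, a}, {v, b}, {v, c}}

theorem exists_red (h : Tf I S) (h3 : 3 ≤ S.card) (hv : v ∈ S)
    (hd : (I.filter (v ∈ ·)).card ≤ 3) :
    ∃ J, Tf J (S.erase v) ∧ (Zext I J v (S.erase v) ∨ Oext I J v (S.erase v)) := by
  have hP := h.pairs
  have hI := h.sp
  have hd2 := h.deg_ge h3 hv
  obtain ⟨N, hvN, hN, hNc⟩ := star_image hP (v := v)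
  set K := I.filter (v ∉ ·) with hK
  have hsplit : K ∪ I.filter (v ∈ ·) = I := by
    rw [hK, Finset.union_comm]
    exact Finset.filter_union_filter_not_eq _ _
  have hcard : K.card + (I.filter (v ∈ ·)).card = I.card := by
    rw [add_comm]
    exact Finset.card_filter_add_card_filter_not _
  have hKP : Pairs K := fun e he => hP e (Finset.mem_filter.1 he).1
  have hKs : Sp K := hI.mono (Finset.filter_subset _ _)
  have hKv : ∀ e ∈ K, v ∉ e := fun e he => (Finset.mem_filter.1 he).2
  have hKS : ∀ e ∈ K, e ⊆ S.erase v := by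
    intro e he x hx
    exact Finset.mem_erase.2 ⟨by rintro rfl; exact hKv e he hx,
      h.sub e (Finset.mem_filter.1 he).1 hx⟩
  have hSc : (S.erase v).card = S.card - 1 := card_erase_of_mem hv
  have hc := h.card
  have hNS : ∀ x ∈ N, x ∈ S.erase v := by
    intro x hx
    have h1 : ({v, x} : Finset W) ∈ I.filter (v ∈ ·) := by
      rw [hN]
      exact Finset.mem_image_of_mem _ hx
    refine Finset.mem_erase.2 ⟨by rintro rfl; exact hvN hx, ?_⟩
    exact h.sub _ (Finset.mem_filter.1 h1).1 (by simp)
  rcases (by omega : N.card = 2 ∨ N.card = 3) with h1 | h1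
  · obtain ⟨a, b, hab, rfl⟩ := Finset.card_eq_two.1 h1
    have himg : I.filter (v ∈ ·) = {{v, a}, {v, b}} := by
      rw [hN]
      simp [Finset.image_insert, Finset.image_singleton]
    refine ⟨K, ⟨hKP, hKs, hKS, by omega⟩, Or.inl ⟨a, hNS a (by simp), b, hNS b (by simp), hab, ?_⟩⟩
    rw [← himg]
    exact hsplit.symm
  · obtain ⟨a, b, c, hab, hac, hbc, rfl⟩ := Finset.card_eq_three.1 h1
    have hav : a ≠ v := by rintro rfl; simp at hvN
    have hbv : b ≠ v := by rintro rfl; simp at hvN
    have hcv : c ≠ v := by rintro rfl; simp at hvN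
    have hmem : ∀ x ∈ ({a, b, c} : Finset W), ({v, x} : Finset W) ∈ I := by
      intro x hx
      have : ({v, x} : Finset W) ∈ I.filter (v ∈ ·) := by
        rw [hN]
        exact Finset.mem_image_of_mem _ hx
      exact (Finset.mem_filter.1 this).1
    have himg : I.filter (v ∈ ·) = {{v, a}, {v, b}, {v, c}} := by
      rw [hN]
      simp [Finset.image_insert, Finset.image_singleton]
    have hIeq : K ∪ {{v, a}, {v, b}, {v, c}} = I := by rw [← himg]; exact hsplit
    have step : ∀ x y w : W, x ∈ S.erase v → y ∈ S.erase v → w ∈ S.erase v → x ≠ y → x ≠ w →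
        y ≠ w → K ∪ {{v, x}, {v, y}, {v, w}} = I → {x, y} ∉ K → Sp (insert {x, y} K) →
        ∃ J, Tf J (S.erase v) ∧ (Zext I J v (S.erase v) ∨ Oext I J v (S.erase v)) := by
      intro x y w hx hy hw hxy hxw hyw hE hnot hsp
      refine ⟨insert {x, y} K, ⟨?_, hsp, ?_, ?_⟩, Or.inr ⟨x, hx, y, hy, w, hw, hxy, hxw, hyw,
        mem_insert_self _ _, ?_⟩⟩
      · intro e he
        rcases Finset.mem_insert.1 he with rfl | he
        · exact Finset.card_pair hxy
        · exact hKP e he
      · intro e he
        rcases Finset.mem_insert.1 he with rfl | he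
        · intro z hz
          simp only [mem_insert, mem_singleton] at hz
          rcases hz with rfl | rfl
          · exact hx
          · exact hy
        · exact hKS e he
      · rw [Finset.card_insert_of_notMem hnot]
        omega
      · rw [erase_insert hnot]
        exact hE.symm
    rcases exists_split hP hI hav hbv hcv hab hac hbc (hmem a (by simp)) (hmem b (by simp))
      (hmem c (by simp)) with ⟨h2, h3⟩ | ⟨h2, h3⟩ | ⟨h2, h3⟩
    · exact step a b c (hNS a (by simp)) (hNS b (by simp)) (hNS c (by simp)) hab hac hbc hIeq h2 h3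
    · refine step b c a (hNS b (by simp)) (hNS c (by simp)) (hNS a (by simp)) hbc hab.symm
        hac.symm ?_ h2 h3
      rw [← hIeq]
      congr 1
      ext e
      simp only [Finset.mem_insert, Finset.mem_singleton]
      tauto
    · refine step c a b (hNS c (by simp)) (hNS a (by simp)) (hNS b (by simp)) hac.symm hbc.symm
        hab ?_ h2 h3
      rw [← hIeq]
      congr 1
      ext e
      simp only [Finset.mem_insert, Finset.mem_singleton]
      tauto

theorem exists_low (h : Tf I S) : ∃ v ∈ S, (I.filter (v ∈ ·)).card ≤ 3 := by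
  have h2 := h.two_le
  have h3 := h.card
  have hne : I.Nonempty := Finset.card_pos.1 (by omega)
  obtain ⟨v, h1, h4⟩ := exists_low_degree h.pairs h.sp hne
  obtain ⟨e, he⟩ := Finset.card_pos.1 h1
  exact ⟨v, h.sub e (Finset.mem_filter.1 he).1 (Finset.mem_filter.1 he).2, h4⟩

theorem exists_low_rel (h : Tf I S) (h0 : S0 ⊂ S) (ht : Tight I S0) :
    ∃ v ∈ S, v ∉ S0 ∧ (I.filter (v ∈ ·)).card ≤ 3 := by
  by_contra hcon
  push Not at hcon
  set T := S \ S0 with hT
  have hTc : T.card + S0.card = S.card := Finset.card_sdiff_add_card_eq_card h0.1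
  have hT1 : 1 ≤ T.card := by
    obtain ⟨x, hx, hx'⟩ := Finset.exists_of_ssubset h0
    exact Finset.card_pos.2 ⟨x, mem_sdiff.2 ⟨hx, hx'⟩⟩
  have h1 : 4 * T.card ≤ ∑ v ∈ T, (I.filter (v ∈ ·)).card := by
    calc 4 * T.card = ∑ _v ∈ T, 4 := by simp [mul_comm]
      _ ≤ _ := Finset.sum_le_sum fun v hv => by
        obtain ⟨h1, h2⟩ := mem_sdiff.1 hv
        have := hcon v h1 h2
        omega
  have h2 : ∑ v ∈ T, (I.filter (v ∈ ·)).card = ∑ e ∈ I, (T.filter (· ∈ e)).card := by
    simp only [Finset.card_filter]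
    rw [Finset.sum_comm]
  have h3 : ∀ e ∈ I, (T.filter (· ∈ e)).card ≤ (if e ⊆ S0 then 0 else 1) +
      (if e ⊆ T then 1 else 0) := by
    intro e he
    have hec := h.pairs e he
    by_cases e1 : e ⊆ S0
    · rw [if_pos e1]
      have : T.filter (· ∈ e) = ∅ := by
        rw [Finset.filter_eq_empty_iff]
        intro x hx hxe
        exact (mem_sdiff.1 hx).2 (e1 hxe)
      rw [this, card_empty]
      omega
    · rw [if_neg e1]
      have hle : T.filter (· ∈ e) ⊆ e := fun x hx => (mem_filter.1 hx).2
      have := card_le_card hle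
      by_cases e2 : e ⊆ T
      · rw [if_pos e2]
        omega
      · rw [if_neg e2]
        have hne : T.filter (· ∈ e) ≠ e := by
          intro hh
          apply e2
          intro x hx
          rw [← hh] at hx
          exact (mem_filter.1 hx).1
        have := card_lt_card (lt_of_le_of_ne hle hne)
        omega
  have h4 : ∑ e ∈ I, (T.filter (· ∈ e)).card ≤ (I.filter (¬ · ⊆ S0)).card + ins I T := by
    refine (Finset.sum_le_sum h3).trans (le_of_eq ?_)
    rw [Finset.sum_add_distrib]
    congr 1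
    · rw [Finset.card_filter]
      exact Finset.sum_congr rfl fun e _ => by split_ifs <;> rfl
    · unfold ins
      rw [Finset.card_filter]
  have h5 : (I.filter (· ⊆ S0)).card + (I.filter (¬ · ⊆ S0)).card = I.card :=
    Finset.card_filter_add_card_filter_not _
  have h6 : ins I S0 = (I.filter (· ⊆ S0)).card := rfl
  have h7 := ht.2
  have h8 := h.card
  have h9 : ins I T < 2 * T.card := by
    by_cases hc : 2 ≤ T.card
    · have := h.sp T hc
      omega
    · have : ins I T = 0 := by
        unfold ins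
        rw [Finset.card_eq_zero, Finset.filter_eq_empty_iff]
        intro e he heT
        have := card_le_card heT
        have := h.pairs e he
        omega
      omega
  omega

/-- the graph of a family of pairs -/
def gI (I : Finset (Finset W)) : SimpleGraph W where
  Adj a b := a ≠ b ∧ {a, b} ∈ I
  symm := ⟨fun a b h => ⟨h.1.symm, by rw [Finset.pair_comm]; exact h.2⟩⟩
  loopless := ⟨fun _ h => h.1 rfl⟩

theorem gI_adj {a b : W} : (gI I).Adj a b ↔ a ≠ b ∧ {a, b} ∈ I := Iff.rfl

/-- the pairs of adjacent vertices of a graph -/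
noncomputable def pr (X : SimpleGraph W) : Finset (Finset W) := by
  classical
  exact univ.filter (fun e => e.card = 2 ∧ ∀ a ∈ e, ∀ b ∈ e, a ≠ b → X.Adj a b)

theorem mem_pr {X : SimpleGraph W} {e : Finset W} :
    e ∈ pr X ↔ e.card = 2 ∧ ∀ a ∈ e, ∀ b ∈ e, a ≠ b → X.Adj a b := by
  unfold pr
  simp

theorem pair_mem_pr {X : SimpleGraph W} {a b : W} : {a, b} ∈ pr X ↔ X.Adj a b := by
  rw [mem_pr]
  constructor
  · rintro ⟨h1, h2⟩
    have hab : a ≠ b := by
      rintro rfl
      simp at h1
    exact h2 a (by simp) b (by simp) hab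
  · intro h
    refine ⟨Finset.card_pair h.ne, ?_⟩
    intro x hx y hy hxy
    simp only [mem_insert, mem_singleton] at hx hy
    rcases hx with rfl | rfl <;> rcases hy with rfl | rfl
    · exact absurd rfl hxy
    · exact h
    · exact h.symm
    · exact absurd rfl hxy

theorem pairs_pr (X : SimpleGraph W) : Pairs (pr X) := fun _ he => (mem_pr.1 he).1

theorem gI_le {X : SimpleGraph W} (h : I ⊆ pr X) : gI I ≤ X := by
  intro a b hab
  exact pair_mem_pr.1 (h hab.2)

end Pool.Agent.T2H61.PP
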