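import Pool.Agent.T2H61.PP.Can
import Pool.Agent.T2H61.PP.Lam

/-!
# Classification of the minimally rigid graphs with at most six vertices
-/

set_option autoImplicit false
set_option linter.unusedSectionVars false

namespace Pool.Agent.T2H61.PP

open Finset Pool.Agent.H598R2.Cnt Pool.Agent.H632R2.Laman

/-- isomorphisms of the graphs which arise by a Henneberg move with the graphs of the list -/
def tbl : List (ℕ × ℕ) := [
  (32776, 136), (32832, 136), (49160, 1672), (49168, 1616), (49216, 1672),
  (49232, 1553), (49280, 1616), (49288, 1553), (49674, 538), (49681, 1049),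
  (49730, 538), (49744, 1112), (49793, 1049), (49800, 1112), (65544, 18056),
  (65552, 280200), (65560, 279752), (65600, 18056), (65616, 280193), (65624, 279745),
  (65664, 280200), (65672, 280193), (65688, 542344), (65728, 279752), (65736, 279745),
  (65744, 542344), (66058, 537122), (66059, 533027), (66065, 272129), (66067, 534616),
  (66073, 275713), (66074, 538704), (66114, 537122), (66115, 533027), (66128, 272136),
  (66131, 534553), (66136, 275720), (66138, 538641), (66177, 272129), (66179, 534616),
  (66184, 272136), (66187, 534553), (66241, 275713), (66242, 538704), (66248, 275720),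
  (66250, 538641), (81928, 181896), (81936, 444040), (81944, 443592), (81952, 439560),
  (81984, 181896), (82000, 444033), (82008, 443585), (82016, 439553), (82048, 444040),
  (82056, 444033), (82072, 706184), (82080, 702600), (82112, 443592), (82120, 443585),
  (82128, 706184), (82144, 698568), (82176, 439560), (82184, 439553), (82192, 702600),
  (82200, 698568), (82442, 968328), (82443, 967880), (82444, 963848), (82449, 345921),
  (82451, 1230472), (82452, 1226888), (82457, 378177), (82458, 1230024), (82460, 1222856),
  (82465, 406849), (82466, 1225992), (82467, 1222408), (82498, 968328), (82499, 967880),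
  (82500, 963848), (82512, 345928), (82515, 1230465), (82516, 1226881), (82520, 378184),
  (82522, 1230017), (82524, 1222849), (82528, 406856), (82530, 1225985), (82531, 1222401),
  (82561, 345921), (82563, 1230472), (82564, 1226888), (82568, 345928), (82571, 1230465),
  (82572, 1226881), (82625, 378177), (82626, 1230024), (82628, 1222856), (82632, 378184),
  (82634, 1230017), (82636, 1222849), (82689, 406849), (82690, 1225992), (82691, 1222408),
  (82696, 406856), (82698, 1225985), (82699, 1222401), (82952, 415368), (82960, 383056),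
  (82968, 1492616), (82976, 1488976), (83008, 415368), (83024, 1754760), (83032, 2016904),
  (83040, 1193288), (83072, 383056), (83080, 1754760), (83096, 1164112), (83104, 2013264),
  (83136, 1492616), (83144, 2016904), (83152, 1164112), (83168, 2279048), (83200, 1488976),
  (83208, 1193288), (83216, 2013264), (83224, 2279048), (83466, 1100482), (83467, 2541192),
  (83468, 2803336), (83473, 1129217), (83475, 2799696), (83476, 2537552), (83481, 1952392),
  (83482, 641616), (83484, 2216720), (83489, 670344), (83490, 1981008), (83491, 2249928),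
  (83522, 1100482), (83523, 2541192), (83524, 2803336), (83536, 1455208), (83539, 2474664),
  (83540, 2503784), (83544, 1428104), (83546, 1229506), (83548, 2762344), (83585, 1129217),
  (83587, 2799696), (83588, 2537552), (83592, 1455208), (83595, 2474664), (83596, 2503784),
  (83616, 1456720), (83617, 1225985), (83619, 2726056), (83649, 1952392), (83650, 641616),
  (83652, 2216720), (83656, 1428104), (83658, 1229506), (83660, 2762344), (83713, 670344),
  (83714, 1981008), (83715, 2249928), (83728, 1456720), (83729, 1225985), (83731, 2726056),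
  (83976, 677512), (83984, 1168144), (83992, 1135384), (84000, 2726560), (84032, 677512),
  (84048, 1167633), (84056, 1134873), (84064, 2722465), (84096, 1168144), (84104, 1167633),
  (84120, 841754), (84128, 2412826), (84160, 1135384), (84168, 1134873), (84176, 841754),
  (84192, 2412819), (84224, 2726560), (84232, 2722465), (84240, 2412826), (84248, 2412819),
  (84490, 2676762), (84491, 2676755), (84492, 3065480), (84497, 2238273), (84499, 2787411),
  (84500, 3327624), (84505, 2241857), (84506, 2787418), (84508, 3327176), (84546, 2676762),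
  (84547, 2676755), (84548, 3065480), (84560, 2238280), (84563, 2791443), (84564, 3229512),
  (84568, 2241864), (84570, 2791450), (84572, 3261768), (84609, 2238273), (84611, 2787411),
  (84612, 3327624), (84616, 2238280), (84619, 2791443), (84620, 3229512), (84640, 2250376),
  (84641, 2250369), (84643, 2408787), (84673, 2241857), (84674, 2787418), (84676, 3327176),
  (84680, 2241864), (84682, 2791450), (84684, 3261768), (84704, 2249928), (84705, 2249921),
  (84706, 2408794), (84752, 2250376), (84753, 2250369), (84755, 2408787), (84760, 2249928),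
  (84761, 2249921), (84762, 2408794)]

/-- adjacency after a 0-extension -/
def adj0 (A : ℕ → ℕ → Bool) (k a b x y : ℕ) : Bool :=
  bif Nat.beq x k then (Nat.beq y a || Nat.beq y b) else
  bif Nat.beq y k then (Nat.beq x a || Nat.beq x b) else A x y

/-- adjacency after a 1-extension -/
def adj1 (A : ℕ → ℕ → Bool) (k a b c x y : ℕ) : Bool :=
  bif Nat.beq x k then (Nat.beq y a || (Nat.beq y b || Nat.beq y c)) else
  bif Nat.beq y k then (Nat.beq x a || (Nat.beq x b || Nat.beq x c)) else
  (A x y && !((Nat.beq x a && Nat.beq y b) || (Nat.beq x b && Nat.beq y a)))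

def look (K : ℕ) : List (ℕ × ℕ) → ℕ
  | [] => 0
  | e :: l => bif Nat.beq e.1 K then e.2 else look K l

def key (k i t a b c : ℕ) : ℕ := ((((k * 16 + i) * 2 + t) * 8 + a) * 8 + b) * 8 + c

/-- the permutation of an entry -/
def sg (w x : ℕ) : ℕ := (w >>> (3 * x)) % 8

def chk (k w : ℕ) (A' A : ℕ → ℕ → Bool) : Bool :=
  al k (fun x => Nat.ble (sg w x + 1) k && al k (fun y =>
    Nat.beq x y || ((!(Nat.beq (sg w x) (sg w y))) && (A' x y == A (sg w x) (sg w y)))))

def chk' (k w : ℕ) (A : ℕ → ℕ → Bool) : Bool :=
  Nat.ble (w / 262144 + 1) (can k).length && chk k w (adjb ((can k).getD (w / 262144) [])) A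

def okc0 (k i : ℕ) : Bool := al k (fun a => al k (fun b => Nat.beq a b ||
  chk' (k + 1) (look (key k i 0 a b 0) tbl) (adj0 (adjb ((can k).getD i [])) k a b)))

def okc1 (k i : ℕ) : Bool := al k (fun a => al k (fun b => (!(adjb ((can k).getD i []) a b)) ||
  al k (fun c => Nat.beq a c || (Nat.beq b c ||
  chk' (k + 1) (look (key k i 1 a b c) tbl) (adj1 (adjb ((can k).getD i [])) k a b c)))))

theorem okc (k : ℕ) (h2 : 2 ≤ k) (h5 : k ≤ 5) (i : ℕ) (hi : i < (can k).length) :
    okc0 k i = true ∧ okc1 k i = true := by
  have h : al 6 (fun k => Nat.ble k 1 || al (can k).length (fun i => okc0 k i && okc1 k i)) =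
      true := by
    decide +kernel
  have h1 := (al_eq _ _).1 h k (by omega)
  rw [Bool.or_eq_true] at h1
  have h3 : ¬ Nat.ble k 1 = true := by
    rw [Nat.ble_eq]
    omega
  have h4 := (al_eq _ _).1 (h1.resolve_left h3) i hi
  rwa [Bool.and_eq_true] at h4

variable {W : Type} [Fintype W] [DecidableEq W]

/-- `I` is a copy of one of the graphs of the list -/
def IsCan (k : ℕ) (I : Finset (Finset W)) (S : Finset W) : Prop :=
  ∃ E ∈ can k, ∃ f : Fin k → W, Function.Injective f ∧ univ.image f = S ∧
    ∀ a b : Fin k, a ≠ b → ({f a, f b} ∈ I ↔ adjb E a b = true)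

theorem isCan_of_chk {k w : ℕ} {A : ℕ → ℕ → Bool} (h : chk' k w A = true)
    {I : Finset (Finset W)} {S : Finset W} {f : Fin k → W} (hf : Function.Injective f)
    (hS : univ.image f = S) (hA : ∀ a b : Fin k, a ≠ b → ({f a, f b} ∈ I ↔ A a b = true)) :
    IsCan k I S := by
  rw [chk', Bool.and_eq_true, Nat.ble_eq] at h
  obtain ⟨h1, h2⟩ := h
  have h3 : (can k).getD (w / 262144) [] ∈ can k := by
    rw [List.getD_eq_getElem _ _ (by omega)]
    exact List.getElem_mem _
  refine ⟨_, h3, ?_⟩
  have h4 := (al_eq _ _).1 h2
  have h5 : ∀ x : Fin k, sg w x < k := by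
    intro x
    have := h4 x x.2
    rw [Bool.and_eq_true, Nat.ble_eq] at this
    exact this.1
  have h6 : ∀ x y : Fin k, x ≠ y → sg w x ≠ sg w y ∧
      adjb ((can k).getD (w / 262144) []) x y = A (sg w x) (sg w y) := by
    intro x y hxy
    have := h4 x x.2
    rw [Bool.and_eq_true] at this
    have := (al_eq _ _).1 this.2 y y.2
    rw [Bool.or_eq_true, beq_iff, Bool.and_eq_true, Bool.not_eq_true', beq_false] at this
    obtain ⟨h7, h8⟩ := this.resolve_left (fun h => hxy (Fin.ext h))
    exact ⟨h7, eq_of_beq h8⟩
  set σ : Fin k → Fin k := fun x => ⟨sg w x, h5 x⟩ with hσ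
  have hσi : Function.Injective σ := by
    intro x y hxy
    by_contra hne
    exact (h6 x y hne).1 (congrArg Fin.val hxy)
  refine ⟨f ∘ σ, hf.comp hσi, ?_, ?_⟩
  · rw [← hS, ← Finset.image_image, Finset.image_univ_of_surjective
      (Finite.surjective_of_injective hσi)]
  · intro a b hab
    rw [(h6 a b hab).2]
    exact hA (σ a) (σ b) (fun h => hab (hσi h))

/-- the numbering with a new vertex -/
def fx {k : ℕ} (f : Fin k → W) (v : W) (x : Fin (k + 1)) : W :=
  if h : x.1 < k then f ⟨x.1, h⟩ else v

theorem fx_inj {k : ℕ} {f : Fin k → W} {v : W} (hf : Function.Injective f)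
    (hv : ∀ x, f x ≠ v) : Function.Injective (fx f v) := by
  intro x y hxy
  unfold fx at hxy
  split_ifs at hxy with h1 h2 h2
  · have := hf hxy
    exact Fin.ext (by simpa using this)
  · exact absurd hxy (hv _)
  · exact absurd hxy.symm (hv _)
  · exact Fin.ext (by omega)

theorem fx_image {k : ℕ} {f : Fin k → W} {v : W} {S : Finset W} (hv : v ∈ S)
    (hf : univ.image f = S.erase v) : univ.image (fx f v) = S := by
  ext x
  rw [mem_image]
  constructor
  · rintro ⟨y, _, rfl⟩
    unfold fx
    split_ifs with h
    · have : f ⟨y.1, h⟩ ∈ S.erase v := by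
        rw [← hf]
        exact mem_image_of_mem _ (mem_univ _)
      exact mem_of_mem_erase this
    · exact hv
  · intro hx
    by_cases hxv : x = v
    · refine ⟨Fin.last k, mem_univ _, ?_⟩
      unfold fx
      rw [dif_neg (by simp), hxv]
    · have : x ∈ univ.image f := by
        rw [hf]
        exact mem_erase.2 ⟨hxv, hx⟩
      obtain ⟨y, _, rfl⟩ := mem_image.1 this
      refine ⟨y.castSucc, mem_univ _, ?_⟩
      unfold fx
      rw [dif_pos (by simp)]
      rfl

theorem pair_inj {x y v : W} (hx : x ≠ v) (hy : y ≠ v) : ({v, x} : Finset W) = {v, y} ↔ x = y := by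
  constructor
  · intro h
    have : x ∈ ({v, y} : Finset W) := by
      rw [← h]
      simp
    simp only [mem_insert, mem_singleton] at this
    exact this.resolve_left hx
  · rintro rfl
    rfl

theorem pair_eq {a b x y : W} : ({x, y} : Finset W) = {a, b} ↔ (x = a ∧ y = b) ∨ (x = b ∧ y = a) := by
  constructor
  · intro h
    have hx : x ∈ ({a, b} : Finset W) := by rw [← h]; simp
    have hy : y ∈ ({a, b} : Finset W) := by rw [← h]; simp
    have ha : a ∈ ({x, y} : Finset W) := by rw [h]; simp
    have hb : b ∈ ({x, y} : Finset W) := by rw [h]; simp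
    simp only [mem_insert, mem_singleton] at hx hy ha hb
    rcases hx with rfl | rfl
    · rcases hy with rfl | rfl
      · rcases hb with rfl | rfl <;> exact Or.inl ⟨rfl, rfl⟩
      · exact Or.inl ⟨rfl, rfl⟩
    · rcases hy with rfl | rfl
      · exact Or.inr ⟨rfl, rfl⟩
      · rcases ha with rfl | rfl <;> exact Or.inl ⟨rfl, rfl⟩
  · rintro (⟨rfl, rfl⟩ | ⟨rfl, rfl⟩)
    · rfl
    · exact pair_comm _ _

theorem isCan_step {k : ℕ} (h2 : 2 ≤ k) (h5 : k ≤ 5) {I J : Finset (Finset W)} {S : Finset W}
    {v : W} (hv : v ∈ S) (hJ : Tf J (S.erase v)) (hc : IsCan k J (S.erase v))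
    (h : Zext I J v (S.erase v) ∨ Oext I J v (S.erase v)) : IsCan (k + 1) I S := by
  obtain ⟨E, hE, f, hf, hfS, hfE⟩ := hc
  obtain ⟨i, hi, rfl⟩ := List.getElem_of_mem hE
  have hEi : (can k).getD i [] = (can k)[i] := List.getD_eq_getElem _ _ hi
  obtain ⟨ok0, ok1⟩ := okc k h2 h5 i hi
  have hfv : ∀ x, f x ≠ v := by
    intro x
    have : f x ∈ S.erase v := by
      rw [← hfS]
      exact mem_image_of_mem _ (mem_univ _)
    exact (mem_erase.1 this).1
  have hpre : ∀ x ∈ S.erase v, ∃ y : Fin k, f y = x := by
    intro x hx
    rw [← hfS] at hx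
    obtain ⟨y, _, h⟩ := mem_image.1 hx
    exact ⟨y, h⟩
  have hvJ : ∀ e ∈ J, v ∉ e := fun e he h => (mem_erase.1 (hJ.sub e he h)).1 rfl
  have hlast : ∀ x : Fin (k + 1), ¬ (x : ℕ) < k → (x : ℕ) = k := fun x hx => by omega
  rcases h with ⟨a, ha, b, hb, hab, hIJ⟩ | ⟨a, ha, b, hb, c, hc, hab, hac, hbc, habJ, hIJ⟩
  · obtain ⟨a, rfl⟩ := hpre a ha
    obtain ⟨b, rfl⟩ := hpre b hb
    have h6 := (al_eq _ _).1 ((al_eq _ _).1 ok0 a a.2) b b.2
    rw [Bool.or_eq_true, beq_iff] at h6
    refine isCan_of_chk (h6.resolve_left fun h => hab (by rw [Fin.ext h])) (fx_inj hf hfv)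
      (fx_image hv hfS) ?_
    have hstar : ∀ y : Fin k, ({v, f y} : Finset W) ∈ I ↔ y = a ∨ y = b := by
      intro y
      rw [hIJ, mem_union, mem_insert, mem_singleton, pair_inj (hfv y) (hfv a),
        pair_inj (hfv y) (hfv b), hf.eq_iff, hf.eq_iff]
      constructor
      · rintro (h | h)
        · exact absurd (by simp) (hvJ _ h)
        · exact h
      · exact Or.inr
    intro x y hxy
    unfold fx adj0
    by_cases hx : (x : ℕ) < k
    · have nx : Nat.beq x k = false := (beq_false _ _).2 (by omega)
      rw [dif_pos hx, nx, cond_false]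
      by_cases hy : (y : ℕ) < k
      · have ny : Nat.beq y k = false := (beq_false _ _).2 (by omega)
        rw [dif_pos hy, ny, cond_false, hEi]
        have := hfE ⟨x, hx⟩ ⟨y, hy⟩ (fun h => hxy (Fin.ext (by simpa using h)))
        rw [← this, hIJ, mem_union, mem_insert, mem_singleton]
        constructor
        · rintro (h | h | h)
          · exact h
          · exfalso
            have : v ∈ ({f ⟨x, hx⟩, f ⟨y, hy⟩} : Finset W) := by rw [h]; simp
            simp only [mem_insert, mem_singleton] at this
            rcases this with h | h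
            · exact hfv _ h.symm
            · exact hfv _ h.symm
          · exfalso
            have : v ∈ ({f ⟨x, hx⟩, f ⟨y, hy⟩} : Finset W) := by rw [h]; simp
            simp only [mem_insert, mem_singleton] at this
            rcases this with h | h
            · exact hfv _ h.symm
            · exact hfv _ h.symm
        · exact Or.inl
      · have ny : Nat.beq y k = true := (beq_iff _ _).2 (hlast y hy)
        rw [dif_neg hy, ny, cond_true, pair_comm, hstar, Bool.or_eq_true, beq_iff, beq_iff,
          Fin.ext_iff, Fin.ext_iff]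
    · have nx : Nat.beq x k = true := (beq_iff _ _).2 (hlast x hx)
      have hy : (y : ℕ) < k := by
        by_contra hy
        exact hxy (Fin.ext (by rw [hlast x hx, hlast y hy]))
      rw [dif_neg hx, nx, cond_true, dif_pos hy, hstar, Bool.or_eq_true, beq_iff, beq_iff,
        Fin.ext_iff, Fin.ext_iff]
  · obtain ⟨a, rfl⟩ := hpre a ha
    obtain ⟨b, rfl⟩ := hpre b hb
    obtain ⟨c, rfl⟩ := hpre c hc
    have hab' : a ≠ b := fun h => hab (by rw [h])
    have h6 := (al_eq _ _).1 ((al_eq _ _).1 ok1 a a.2) b b.2
    rw [hEi, (hfE a b hab').1 habJ] at h6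
    have h7 := (al_eq _ _).1 (by simpa using h6) c c.2
    rw [Bool.or_eq_true, beq_iff, Bool.or_eq_true, beq_iff] at h7
    refine isCan_of_chk ((h7.resolve_left fun h => hac (by rw [Fin.ext h])).resolve_left
      fun h => hbc (by rw [Fin.ext h])) (fx_inj hf hfv) (fx_image hv hfS) ?_
    have hstar : ∀ y : Fin k, ({v, f y} : Finset W) ∈ I ↔ y = a ∨ y = b ∨ y = c := by
      intro y
      rw [hIJ, mem_union, mem_insert, mem_insert, mem_singleton, pair_inj (hfv y) (hfv a),
        pair_inj (hfv y) (hfv b), pair_inj (hfv y) (hfv c), hf.eq_iff, hf.eq_iff, hf.eq_iff]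
      constructor
      · rintro (h | h)
        · exact absurd (by simp) (hvJ _ (mem_of_mem_erase h))
        · exact h
      · exact Or.inr
    intro x y hxy
    unfold fx adj1
    by_cases hx : (x : ℕ) < k
    · have nx : Nat.beq x k = false := (beq_false _ _).2 (by omega)
      rw [dif_pos hx, nx, cond_false]
      by_cases hy : (y : ℕ) < k
      · have ny : Nat.beq y k = false := (beq_false _ _).2 (by omega)
        rw [dif_pos hy, ny, cond_false]
        have := hfE ⟨x, hx⟩ ⟨y, hy⟩ (fun h => hxy (Fin.ext (by simpa using h)))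
        rw [Bool.and_eq_true, ← this, Bool.not_eq_true', hIJ, mem_union, mem_erase, mem_insert,
          mem_insert, mem_singleton]
        have e1 : ({f ⟨x, hx⟩, f ⟨y, hy⟩} : Finset W) ≠ {f a, f b} ↔
            (((x : ℕ).beq a && (y : ℕ).beq b) || ((x : ℕ).beq b && (y : ℕ).beq a)) = false := by
          rw [Ne, pair_eq, hf.eq_iff, hf.eq_iff, hf.eq_iff, hf.eq_iff, ← Bool.not_eq_true,
            Bool.or_eq_true, Bool.and_eq_true, Bool.and_eq_true, beq_iff, beq_iff, beq_iff, beq_iff,
            Fin.ext_iff, Fin.ext_iff, Fin.ext_iff, Fin.ext_iff]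
        have e2 : ∀ z : Fin k, ({f ⟨x, hx⟩, f ⟨y, hy⟩} : Finset W) ≠ {v, f z} := by
          intro z h
          have : v ∈ ({f ⟨x, hx⟩, f ⟨y, hy⟩} : Finset W) := by rw [h]; simp
          simp only [mem_insert, mem_singleton] at this
          rcases this with h | h
          · exact hfv _ h.symm
          · exact hfv _ h.symm
        constructor
        · rintro (h | h | h | h)
          · exact ⟨h.2, e1.1 h.1⟩
          · exact absurd h (e2 a)
          · exact absurd h (e2 b)
          · exact absurd h (e2 c)
        · rintro ⟨h, h'⟩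
          exact Or.inl ⟨e1.2 h', h⟩
      · have ny : Nat.beq y k = true := (beq_iff _ _).2 (hlast y hy)
        rw [dif_neg hy, ny, cond_true, pair_comm, hstar, Bool.or_eq_true, Bool.or_eq_true, beq_iff,
          beq_iff, beq_iff, Fin.ext_iff, Fin.ext_iff, Fin.ext_iff]
    · have nx : Nat.beq x k = true := (beq_iff _ _).2 (hlast x hx)
      have hy : (y : ℕ) < k := by
        by_contra hy
        exact hxy (Fin.ext (by rw [hlast x hx, hlast y hy]))
      rw [dif_neg hx, nx, cond_true, dif_pos hy, hstar, Bool.or_eq_true, Bool.or_eq_true, beq_iff,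
        beq_iff, beq_iff, Fin.ext_iff, Fin.ext_iff, Fin.ext_iff]

/-- **Classification** of the tight families with two to six points. -/
theorem isCan_of_tf : ∀ (k : ℕ), 2 ≤ k → k ≤ 6 → ∀ (I : Finset (Finset W)) (S : Finset W),
    Tf I S → S.card = k → IsCan k I S := by
  intro k h2
  induction k, h2 using Nat.le_induction with
  | base =>
    intro _ I S hI hS
    obtain ⟨a, b, hab, rfl⟩ := Finset.card_eq_two.1 hS
    have hc := hI.card
    have hc1 : I.card = 1 := by omega
    obtain ⟨e, rfl⟩ := Finset.card_eq_one.1 hc1
    have he : e = {a, b} := by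
      refine Finset.eq_of_subset_of_card_le (hI.sub e (by simp)) ?_
      rw [hI.pairs e (by simp)]
      exact card_le_two
    subst he
    refine ⟨g2a, by simp [can], ![a, b], ?_, ?_, ?_⟩
    · intro x y hxy
      fin_cases x <;> fin_cases y
      · rfl
      · exact absurd hxy hab
      · exact absurd hxy.symm hab
      · rfl
    · ext x
      simp only [mem_image, mem_univ, true_and, mem_insert, mem_singleton]
      constructor
      · rintro ⟨y, rfl⟩
        fin_cases y
        · exact Or.inl rfl
        · exact Or.inr rfl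
      · rintro (rfl | rfl)
        · exact ⟨0, rfl⟩
        · exact ⟨1, rfl⟩
    · intro x y hxy
      fin_cases x <;> fin_cases y
      · exact absurd rfl hxy
      · simp [adjb, g2a]
      · simp [adjb, g2a, pair_comm]
      · exact absurd rfl hxy
  | succ k hk ih =>
    intro hk6 I S hI hS
    obtain ⟨v, hv, hd⟩ := exists_low hI
    obtain ⟨J, hJ, hIJ⟩ := exists_red hI (by omega) hv hd
    have h1 : (S.erase v).card = k := by
      rw [card_erase_of_mem hv]
      omega
    exact isCan_step hk (by omega) hv hJ (ih (by omega) J _ hJ h1) hIJ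

end Pool.Agent.T2H61.PP
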