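import Pool.Agent.T2H61.CP.Step

/-!
# Henneberg moves of one factor of a Cartesian product
-/

set_option autoImplicit false

namespace Pool.Agent.T2H61.PP

open Matrix Finset SimpleGraph Pool.Agent.H283R2.DR Pool.Agent.T2H61.CP

variable {V W : Type}

theorem L2_line2 (X : SimpleGraph W) (w w' n m n' m' : W → Fin 3 → ℝ) (s : ℝ) :
    L2 X (w + s • w') (n + s • m) (n' + s • m') = L2 X w n n' + s • L2 X w' m m' := by
  unfold L2
  rw [TA.rig_line, dm_line, dm_line]
  refine LinearMap.ext fun u => ?_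
  simp [LinearMap.prod_apply]

theorem good_L2 [Finite W] {E : Type} [AddCommGroup E] [Module ℝ E] (X : SimpleGraph W)
    (A B C : E → W → Fin 3 → ℝ) (hA : ∀ p d (s : ℝ), A (p + s • d) = A p + s • A d)
    (hB : ∀ p d (s : ℝ), B (p + s • d) = B p + s • B d)
    (hC : ∀ p d (s : ℝ), C (p + s • d) = C p + s • C d) :
    TA.Good (fun p => Function.Injective (L2 X (A p) (B p) (C p))) := by
  intro p0 p1 h0
  refine (TA.inj_good _ (L2 X (A (p1 - p0)) (B (p1 - p0)) (C (p1 - p0))) h0).subset ?_
  intro s hs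
  rw [Set.mem_ofPred_eq] at hs ⊢
  beta_reduce at hs
  rwa [hA, hB, hC, L2_line2] at hs

/-- A new layer all of whose vertices are joined to a rigid part, with two normals. -/
theorem new_layer [Finite V] [Finite W] {G : SimpleGraph V} {Y : SimpleGraph W} {S : Set W}
    {v : W} {w n n' : V → Fin 3 → ℝ} {P q : V × W → Fin 3 → ℝ}
    {A : Matrix (Fin 3) (Fin 3) ℝ} {b : Fin 3 → ℝ} (hA : Aᵀ = -A)
    (hq : ∀ x ∈ {z : V × W | z.2 ∈ insert v S}, ∀ y ∈ {z : V × W | z.2 ∈ insert v S},
      (G □ Y).Adj x y → (P x - P y) ⬝ᵥ (q x - q y) = 0)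
    (hP : ∀ g, P (g, v) = w g) (hinj : Function.Injective (L2 G w n n'))
    (h1 : ∀ g, n g ⬝ᵥ (q (g, v) - (A *ᵥ w g + b)) = 0)
    (h2 : ∀ g, n' g ⬝ᵥ (q (g, v) - (A *ᵥ w g + b)) = 0)
    (hS : ∀ x : V × W, x.2 ∈ S → q x = A *ᵥ P x + b) :
    ∀ x ∈ {z : V × W | z.2 ∈ insert v S}, q x = A *ᵥ P x + b := by
  have hvS : ∀ g, (g, v) ∈ {z : V × W | z.2 ∈ insert v S} := fun g => Set.mem_insert _ _
  have key := (L2_inj G w n n').1 hinj (fun g => q (g, v) - (A *ᵥ w g + b)) ?_ h1 h2
  · rintro ⟨g, s⟩ hs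
    rcases hs with hs | hs
    · have hs' : s = v := hs
      subst hs'
      rw [hP]
      exact sub_eq_zero.1 (congrFun key g)
    · exact hS (g, s) hs
  · intro g g' hgg'
    have e := hq (g, v) (hvS g) (g', v) (hvS g') (by simp [hgg'])
    rw [hP, hP] at e
    have e1 : (q (g, v) - (A *ᵥ w g + b)) - (q (g', v) - (A *ᵥ w g' + b)) =
        (q (g, v) - q (g', v)) - A *ᵥ (w g - w g') := by
      rw [mulVec_sub]
      abel
    rw [e1, dotProduct_sub, e, TA.skew_dot hA, sub_zero]

/-- **0-extension** of a factor. -/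
theorem ext0 [Finite V] [Finite W] {G : SimpleGraph V} (hG : S2 G) {X Y : SimpleGraph W}
    {S : Set W} {v a b : W} (hv : v ∉ S) (ha : a ∈ S) (hb : b ∈ S) (hab : a ≠ b)
    (hXY : ∀ s ∈ S, ∀ t ∈ S, X.Adj s t → Y.Adj s t) (h1 : Y.Adj v a) (h2 : Y.Adj v b)
    (hP : ∃ p : V × W → Fin 3 → ℝ, RigidOn (G □ X) {z | z.2 ∈ S} p) :
    ∃ p : V × W → Fin 3 → ℝ, RigidOn (G □ Y) {z | z.2 ∈ insert v S} p := by
  classical
  have hav : a ≠ v := fun h => hv (h ▸ ha)
  have hbv : b ≠ v := fun h => hv (h ▸ hb)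
  obtain ⟨w, n, n', hw⟩ := hG
  obtain ⟨p, hp⟩ := TA.good_family (E := V × W → Fin 3 → ℝ) (ι := Bool)
    (fun i p => match i with
      | true => RigidOn (G □ X) {z | z.2 ∈ S} p
      | false => Function.Injective (L2 G (fun g => p (g, v)) (fun g => p (g, v) - p (g, a))
          (fun g => p (g, v) - p (g, b))))
    (by
      rintro (_ | _)
      · refine good_L2 G (fun (p : V × W → Fin 3 → ℝ) g => p (g, v))
          (fun p g => p (g, v) - p (g, a)) (fun p g => p (g, v) - p (g, b))
          (fun p d s => rfl) (fun p d s => ?_) (fun p d s => ?_)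
        · funext g
          simp only [Pi.add_apply, Pi.smul_apply]
          module
        · funext g
          simp only [Pi.add_apply, Pi.smul_apply]
          module
      · exact good_rigidOn _ _)
    (by
      rintro (_ | _)
      · refine ⟨fun z => if z.2 = v then w z.1 else if z.2 = a then w z.1 - n z.1 else
          w z.1 - n' z.1, ?_⟩
        show Function.Injective (L2 G _ _ _)
        have e1 : (fun g => (fun z : V × W => if z.2 = v then w z.1 else if z.2 = a then
            w z.1 - n z.1 else w z.1 - n' z.1) (g, v)) = w := by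
          funext g
          simp
        have e2 : (fun g => (fun z : V × W => if z.2 = v then w z.1 else if z.2 = a then
            w z.1 - n z.1 else w z.1 - n' z.1) (g, v) - (fun z : V × W => if z.2 = v then w z.1
            else if z.2 = a then w z.1 - n z.1 else w z.1 - n' z.1) (g, a)) = n := by
          funext g
          simp [hav]
        have e3 : (fun g => (fun z : V × W => if z.2 = v then w z.1 else if z.2 = a then
            w z.1 - n z.1 else w z.1 - n' z.1) (g, v) - (fun z : V × W => if z.2 = v then w z.1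
            else if z.2 = a then w z.1 - n z.1 else w z.1 - n' z.1) (g, b)) = n' := by
          funext g
          simp [hbv, hab.symm]
        rw [e2, e3, e1]
        exact hw
      · exact hP)
  have k1 : RigidOn (G □ X) {z | z.2 ∈ S} p := hp true
  have k2 : Function.Injective (L2 G (fun g => p (g, v)) (fun g => p (g, v) - p (g, a))
          (fun g => p (g, v) - p (g, b))) := hp false
  refine ⟨p, ?_⟩
  intro q hq
  obtain ⟨A, c, hA, hc⟩ := k1 q (by
    rintro ⟨g, s⟩ hs ⟨g', s'⟩ hs' h
    refine hq _ (Set.mem_insert_of_mem _ hs) _ (Set.mem_insert_of_mem _ hs') ?_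
    rw [boxProd_adj] at h ⊢
    rcases h with h | ⟨h, h'⟩
    · exact Or.inl h
    · exact Or.inr ⟨hXY s hs s' hs' h, h'⟩)
  refine ⟨A, c, hA, ?_⟩
  have hv' : ∀ g, (g, v) ∈ {z : V × W | z.2 ∈ insert v S} := fun g => Set.mem_insert _ _
  have aux : ∀ x : W, x ∈ S → Y.Adj v x → ∀ g, (p (g, v) - p (g, x)) ⬝ᵥ
      (q (g, v) - (A *ᵥ p (g, v) + c)) = 0 := by
    intro x hx hvx g
    have e := hq (g, v) (hv' g) (g, x) (Set.mem_insert_of_mem _ hx) (by simp [hvx])
    rw [hc (g, x) hx] at e
    have e1 : q (g, v) - (A *ᵥ p (g, x) + c) = (q (g, v) - (A *ᵥ p (g, v) + c)) +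
        A *ᵥ (p (g, v) - p (g, x)) := by
      rw [mulVec_sub]
      abel
    rw [e1, dotProduct_add, TA.skew_dot hA, add_zero] at e
    exact e
  exact new_layer hA hq (fun g => rfl) k2 (aux a ha h1) (aux b hb h2) (fun x hx => hc x hx)

/-- **1-extension** of a factor. -/
theorem ext1 [Finite V] [Finite W] {G : SimpleGraph V} (hG : S2 G) {X Y : SimpleGraph W}
    {S : Set W} {v a b c : W} (hv : v ∉ S) (ha : a ∈ S) (hb : b ∈ S) (hc : c ∈ S) (hab : a ≠ b)
    (hac : a ≠ c) (hbc : b ≠ c)
    (hXY : ∀ s ∈ S, ∀ t ∈ S, X.Adj s t → Y.Adj s t ∨ (s = a ∧ t = b) ∨ (s = b ∧ t = a))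
    (h1 : Y.Adj v a) (h2 : Y.Adj v b) (h3 : Y.Adj v c)
    (hP : ∃ p : V × W → Fin 3 → ℝ, RigidOn (G □ X) {z | z.2 ∈ S} p) :
    ∃ p : V × W → Fin 3 → ℝ, RigidOn (G □ Y) {z | z.2 ∈ insert v S} p := by
  classical
  obtain ⟨w, n, n', hw⟩ := hG
  obtain ⟨p, hp⟩ := TA.good_family (E := V × W → Fin 3 → ℝ) (ι := Bool)
    (fun i p => match i with
      | true => RigidOn (G □ X) {z | z.2 ∈ S} p
      | false => Function.Injective (L2 G (fun g => (1 / 2 : ℝ) • (p (g, a) + p (g, b)))
          (fun g => p (g, a) - p (g, b))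
          (fun g => p (g, c) - (1 / 2 : ℝ) • (p (g, a) + p (g, b)))))
    (by
      rintro (_ | _)
      · refine good_L2 G (fun (p : V × W → Fin 3 → ℝ) g => (1 / 2 : ℝ) • (p (g, a) + p (g, b)))
          (fun p g => p (g, a) - p (g, b))
          (fun p g => p (g, c) - (1 / 2 : ℝ) • (p (g, a) + p (g, b)))
          (fun p d s => ?_) (fun p d s => ?_) (fun p d s => ?_)
        · funext g
          simp only [Pi.add_apply, Pi.smul_apply]
          module
        · funext g
          simp only [Pi.add_apply, Pi.smul_apply]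
          module
        · funext g
          simp only [Pi.add_apply, Pi.smul_apply]
          module
      · exact good_rigidOn _ _)
    (by
      rintro (_ | _)
      · set f : V × W → Fin 3 → ℝ := fun z => if z.2 = a then w z.1 + (1 / 2 : ℝ) • n z.1 else
          if z.2 = b then w z.1 - (1 / 2 : ℝ) • n z.1 else w z.1 + n' z.1 with hf
        have fa : ∀ g, f (g, a) = w g + (1 / 2 : ℝ) • n g := by
          intro g
          simp [hf]
        have fb : ∀ g, f (g, b) = w g - (1 / 2 : ℝ) • n g := by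
          intro g
          simp [hf, hab.symm]
        have fc : ∀ g, f (g, c) = w g + n' g := by
          intro g
          simp [hf, hac.symm, hbc.symm]
        refine ⟨f, ?_⟩
        show Function.Injective (L2 G _ _ _)
        have e1 : (fun g => (1 / 2 : ℝ) • (f (g, a) + f (g, b))) = w := by
          funext g
          rw [fa, fb]
          module
        have e2 : (fun g => f (g, a) - f (g, b)) = n := by
          funext g
          rw [fa, fb]
          module
        have e3 : (fun g => f (g, c) - (1 / 2 : ℝ) • (f (g, a) + f (g, b))) = n' := by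
          funext g
          rw [fa, fb, fc]
          module
        rw [e1, e2, e3]
        exact hw
      · exact hP)
  have k1 : RigidOn (G □ X) {z | z.2 ∈ S} p := hp true
  have k2 : Function.Injective (L2 G (fun g => (1 / 2 : ℝ) • (p (g, a) + p (g, b)))
          (fun g => p (g, a) - p (g, b))
          (fun g => p (g, c) - (1 / 2 : ℝ) • (p (g, a) + p (g, b)))) := hp false
  set w' : V → Fin 3 → ℝ := fun g => (1 / 2 : ℝ) • (p (g, a) + p (g, b)) with hw'
  set P : V × W → Fin 3 → ℝ := fun z => if z.2 = v then w' z.1 else p z with hPd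
  have Pv : ∀ g, P (g, v) = w' g := fun g => by simp [hPd]
  have PS : ∀ g s, s ∈ S → P (g, s) = p (g, s) := by
    intro g s hs
    have : s ≠ v := fun h => hv (h ▸ hs)
    simp [hPd, this]
  refine ⟨P, ?_⟩
  intro q hq
  have hv' : ∀ g, (g, v) ∈ {z : V × W | z.2 ∈ insert v S} := fun g => Set.mem_insert _ _
  have cv : ∀ x : W, x ∈ S → Y.Adj v x → ∀ g, (w' g - p (g, x)) ⬝ᵥ (q (g, v) - q (g, x)) = 0 := by
    intro x hx hvx g
    have e := hq (g, v) (hv' g) (g, x) (Set.mem_insert_of_mem _ hx) (by simp [hvx])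
    rwa [Pv, PS g x hx] at e
  have cab : ∀ g, (p (g, a) - p (g, b)) ⬝ᵥ (q (g, v) - q (g, a)) = 0 ∧
      (p (g, a) - p (g, b)) ⬝ᵥ (q (g, v) - q (g, b)) = 0 := by
    intro g
    have ea := cv a ha h1 g
    have eb := cv b hb h2 g
    have fa : w' g - p (g, a) = (-(1 / 2) : ℝ) • (p (g, a) - p (g, b)) := by
      simp only [hw']
      module
    have fb : w' g - p (g, b) = ((1 / 2) : ℝ) • (p (g, a) - p (g, b)) := by
      simp only [hw']
      module
    rw [fa, smul_dotProduct, smul_eq_mul] at ea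
    rw [fb, smul_dotProduct, smul_eq_mul] at eb
    constructor <;> linarith
  have ceq : ∀ g, (p (g, a) - p (g, b)) ⬝ᵥ (q (g, a) - q (g, b)) = 0 := by
    intro g
    obtain ⟨e1, e2⟩ := cab g
    have e : q (g, a) - q (g, b) = (q (g, v) - q (g, b)) - (q (g, v) - q (g, a)) := by abel
    rw [e, dotProduct_sub, e1, e2, sub_zero]
  obtain ⟨A, d, hA, hd⟩ := k1 q (by
    rintro ⟨g, s⟩ hs ⟨g', s'⟩ hs' h
    rw [boxProd_adj] at h
    rcases h with h | ⟨h, h'⟩
    · have e := hq (g, s) (Set.mem_insert_of_mem _ hs) (g', s') (Set.mem_insert_of_mem _ hs')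
        (by rw [boxProd_adj]; exact Or.inl h)
      rwa [PS g s hs, PS g' s' hs'] at e
    · simp only at h'
      subst h'
      rcases hXY s hs s' hs' h with h | ⟨rfl, rfl⟩ | ⟨rfl, rfl⟩
      · have e := hq (g, s) (Set.mem_insert_of_mem _ hs) (g, s') (Set.mem_insert_of_mem _ hs')
          (by rw [boxProd_adj]; exact Or.inr ⟨h, rfl⟩)
        rwa [PS g s hs, PS g s' hs'] at e
      · exact ceq g
      · have e := ceq g
        rw [← neg_sub (p (g, s)), ← neg_sub (q (g, s)), neg_dotProduct_neg] at e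
        exact e)
  refine ⟨A, d, hA, ?_⟩
  have hd' : ∀ g s, s ∈ S → q (g, s) = A *ᵥ p (g, s) + d := fun g s hs => hd (g, s) hs
  refine new_layer hA hq Pv k2 (fun g => ?_) (fun g => ?_) (fun x hx => ?_)
  · have e := (cab g).1
    rw [hd' g a ha] at e
    have e1 : q (g, v) - (A *ᵥ p (g, a) + d) = (q (g, v) - (A *ᵥ w' g + d)) -
        (1 / 2 : ℝ) • (A *ᵥ (p (g, a) - p (g, b))) := by
      simp only [hw', mulVec_smul, mulVec_add, mulVec_sub]
      module
    rw [e1, dotProduct_sub, dotProduct_smul, TA.skew_dot hA, smul_zero, sub_zero] at e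
    exact e
  · have e := cv c hc h3 g
    rw [hd' g c hc] at e
    have e1 : q (g, v) - (A *ᵥ p (g, c) + d) = (q (g, v) - (A *ᵥ w' g + d)) +
        A *ᵥ (w' g - p (g, c)) := by
      rw [mulVec_sub]
      abel
    rw [e1, dotProduct_add, TA.skew_dot hA, add_zero] at e
    rw [← neg_sub (w' g), neg_dotProduct, e, neg_zero]
  · rw [hd x hx]
    obtain ⟨g, s⟩ := x
    rw [PS g s hx]

end Pool.Agent.T2H61.PP
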