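import Pool.Agent.T2H61.PP.Up
import Pool.Agent.T2H61.CP.CartRank
import Pool.Agent.Y530.TN.Gen
import Pool.Agent.Y532.TN.Prd

/-!
# Ranks: subadditivity, independence of parts, products with a triangle
-/

set_option autoImplicit false
set_option linter.unusedSectionVars false

namespace Pool.Agent.T2H61.PP

open Matrix Finset SimpleGraph Pool.Agent.H598R2.Cnt Pool.Agent.H632R2.Laman Pool.Agent.H283R2.DR
  Pool.Agent.H789R5 Pool.Agent.T2H61.CP
open Pool.Agent.Y530.TN (between)

section sub

variable {U V ι : Type} [Fintype U] [Fintype V] [Fintype ι]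

theorem mo_copies' (Z : SimpleGraph U) (f : ι → (U ↪ V)) (p : V → Fin 3 → ℝ) :
    3 * Fintype.card V ≤ mo (⨆ i, Z.map (f i)) p + Fintype.card ι * genRank 3 Z := by
  have h := mo_copies Z (fun i : Fin (Fintype.card ι) => f ((Fintype.equivFin ι).symm i)) p
  have e : (⨆ i : Fin (Fintype.card ι), Z.map (f ((Fintype.equivFin ι).symm i))) =
      ⨆ i, Z.map (f i) := Equiv.iSup_comp (g := fun i => Z.map (f i)) (Fintype.equivFin ι).symm
  rwa [e] at h

/-- **Independence of parts.** -/
theorem indep_sub (Y : SimpleGraph V) (Z : SimpleGraph U) (f : U ↪ V) (hZ : Z.map f ≤ Y)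
    (hY : genRank 3 Y = Y.edgeSet.ncard) : genRank 3 Z = Z.edgeSet.ncard := by
  classical
  refine le_antisymm (rank_le Z) ?_
  obtain ⟨p, hp⟩ := exists_mg V 3
  have h1 := genRank_add hp Y
  have h2 := mo_copy Z f p
  have h3 := mo_le_add (G := Z.map f) (G' := Y) p
  have h4 : (Z.map f).edgeSet.ncard = Z.edgeSet.ncard := by
    rw [edgeSet_map, Set.ncard_image_of_injective _ (Function.Embedding.injective _)]
  have h5 : (Y.edgeSet \ (Z.map f).edgeSet).ncard + (Z.map f).edgeSet.ncard = Y.edgeSet.ncard :=
    Set.ncard_sdiff_add_ncard_of_subset (edgeSet_mono hZ) (Set.toFinite _)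
  omega

theorem genRank_mono {d : ℕ} {H G : SimpleGraph V} (h : H ≤ G) : genRank d H ≤ genRank d G := by
  obtain ⟨p, hp⟩ := exists_mg V d
  have h1 := genRank_add hp H
  have h2 := genRank_add hp G
  have h3 := mo_anti h p
  omega

theorem Bij.rank {d : ℕ} {H : SimpleGraph U} {G : SimpleGraph V} (h : Bij H G) :
    genRank d H ≤ genRank d G := by
  obtain ⟨f, hf⟩ := h
  have h1 : H.map f.toEmbedding ≤ G := by
    intro a b hab
    rw [SimpleGraph.map_adj] at hab
    obtain ⟨u, v, huv, rfl, rfl⟩ := hab
    exact hf u v huv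
  have h2 : genRank d H = genRank d (H.map f.toEmbedding) :=
    genRank_iso (SimpleGraph.Iso.map f H)
  rw [h2]
  exact genRank_mono h1

theorem Bij.edges {H : SimpleGraph U} {G : SimpleGraph V} (h : Bij H G) :
    H.edgeSet.ncard ≤ G.edgeSet.ncard := by
  obtain ⟨f, hf⟩ := h
  have h1 : H.map f.toEmbedding ≤ G := by
    intro a b hab
    rw [SimpleGraph.map_adj] at hab
    obtain ⟨u, v, huv, rfl, rfl⟩ := hab
    exact hf u v huv
  rw [← Set.ncard_image_of_injective H.edgeSet (Function.Embedding.injective
    (f.toEmbedding.sym2Map))]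
  refine Set.ncard_le_ncard ?_ (Set.toFinite _)
  have h2 := edgeSet_mono h1
  rw [edgeSet_map] at h2
  exact h2

end sub

section prod

variable {V W : Type} [Fintype V] [Fintype W]

/-- **Subadditivity.** -/
theorem genRank_boxProd_le (G : SimpleGraph V) (X : SimpleGraph W) :
    genRank 3 (G □ X) ≤ Fintype.card W * genRank 3 G + Fintype.card V * genRank 3 X := by
  classical
  obtain ⟨p, hp⟩ := exists_mg (V × W) 3
  set f : W → (V ↪ V × W) := fun w => ⟨fun v => (v, w), fun _ _ h => congrArg Prod.fst h⟩ with hf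
  set g : V → (W ↪ V × W) := fun v => ⟨fun w => (v, w), fun _ _ h => congrArg Prod.snd h⟩ with hg
  have h1 := mo_copies' G f p
  have h2 := mo_copies' X g p
  have h3 := finrank_inf (Mot (⨆ i, G.map (f i)) p) (Mot (⨆ i, X.map (g i)) p)
  rw [finrank_all] at h3
  have h4 : Mot (⨆ i, G.map (f i)) p ⊓ Mot (⨆ i, X.map (g i)) p ≤ Mot (G □ X) p := by
    intro q hq
    rw [Submodule.mem_inf, mem_mot, mem_mot] at hq
    rw [mem_mot]
    rintro ⟨a, x⟩ ⟨b, y⟩ hab
    rw [boxProd_adj] at hab
    rcases hab with ⟨h, h'⟩ | ⟨h, h'⟩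
    · simp only at h h'
      subst h'
      refine hq.1 _ _ ?_
      rw [iSup_adj]
      exact ⟨x, (map_adj_apply (f := f x)).2 h⟩
    · simp only at h h'
      subst h'
      refine hq.2 _ _ ?_
      rw [iSup_adj]
      exact ⟨a, (map_adj_apply (f := g a)).2 h⟩
  have h5 := Submodule.finrank_mono h4
  have h6 := genRank_add hp (G □ X)
  unfold mo at *
  omega

end prod

/-! ### The triangle -/

theorem top3_rigid : GenRigid 3 (⊤ : SimpleGraph (Fin 3)) := by
  refine ⟨![![0, 0, 0], ![1, 0, 0], ![0, 1, 0]], ?_⟩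
  intro q hq
  set α := (q 1 - q 0) 1 with hα
  set β := (q 1 - q 0) 2 with hβ
  set γ := (q 2 - q 0) 2 with hγ
  set A : Matrix (Fin 3) (Fin 3) ℝ := !![0, -α, -β; α, 0, -γ; β, γ, 0] with hA
  have hAs : Aᵀ = -A := by
    ext i j
    fin_cases i <;> fin_cases j <;> simp [hA]
  have h10 := hq 1 0 (by simp)
  have h20 := hq 2 0 (by simp)
  have h21 := hq 2 1 (by simp)
  simp [dotProduct, Fin.sum_univ_three] at h10 h20 h21
  refine ⟨A, q 0, hAs, ?_⟩
  intro v
  fin_cases v
  · funext k
    fin_cases k <;> simp [hA]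
  · funext k
    fin_cases k
    · simp [hA]
      linarith
    · simp [hA, hα]
    · simp [hA, hβ]
  · funext k
    fin_cases k
    · simp [hA, hα]
      linarith
    · simp [hA]
      linarith
    · simp [hA, hγ]

theorem rank_top3 : genRank 3 (⊤ : SimpleGraph (Fin 3)) = 3 := by
  have h := (rank_of_rigid (H := (⊤ : SimpleGraph (Fin 3))) (by simp)).1 top3_rigid
  simpa using h

section tri

variable {W : Type} [Fintype W] [DecidableEq W]

/-- the rank of the product with a triangle -/
theorem tri_rank (X : SimpleGraph W) :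
    IsLeast {m : ℕ | ∃ r : Setoid W, m = 3 * Nat.card W +
      6 * (Nat.card W - Nat.card (Quotient r)) + 3 * between X id r}
      (genRank 3 ((⊤ : SimpleGraph (Fin 3)) □ X)) := by
  have h := (Pool.Agent.Y532.TN.Prd.t Pool.Agent.Y530.TN.gen (Fin 3) W ⊤ X (by simp)
    top3_rigid).1
  have e : ∀ r : Setoid W, (3 * Nat.card (Fin 3) - 6) * Nat.card W +
      6 * (Nat.card W - Nat.card (Quotient r)) + Nat.card (Fin 3) * between X id r =
      3 * Nat.card W + 6 * (Nat.card W - Nat.card (Quotient r)) + 3 * between X id r := by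
    intro r
    rw [Nat.card_eq_fintype_card, Fintype.card_fin]
  simp only [e] at h
  exact h

/-- the edges between the classes of a partition of a graph which contains a tight family -/
theorem between_ge {X : SimpleGraph W} {I : Finset (Finset W)} (hI : Tf I univ) (hX : I ⊆ pr X)
    (r : Setoid W) (hr : ∃ x y, x ≠ y ∧ r x y) (hk : 2 ≤ Nat.card (Quotient r)) :
    2 * Nat.card (Quotient r) ≤ between X id r + 2 := by
  classical
  have := Fintype.ofFinite (Quotient r)
  set c : Quotient r → Finset W := fun x => univ.filter (fun w => (Quotient.mk r w) = x) with hc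
  have hcc : ∑ x, (c x).card = Fintype.card W := by
    rw [← card_univ]
    exact (Finset.card_eq_sum_card_fiberwise (fun w _ => mem_univ (Quotient.mk r w))).symm
  have h1 : ∀ x, 1 ≤ (c x).card := by
    intro x
    obtain ⟨w, rfl⟩ := Quotient.exists_rep x
    exact card_pos.2 ⟨w, by simp [hc]⟩
  obtain ⟨x, y, hxy, hr⟩ := hr
  set z := Quotient.mk r x with hz
  have h2 : 2 ≤ (c z).card := by
    rw [← card_pair hxy]
    refine card_le_card ?_
    intro w hw
    simp only [mem_insert, mem_singleton] at hw
    rw [hc, mem_filter]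
    rcases hw with rfl | rfl
    · exact ⟨mem_univ _, rfl⟩
    · exact ⟨mem_univ _, Quotient.sound (Setoid.symm hr)⟩
  have h3 : ∑ x, ins I (c x) + 2 * Fintype.card (Quotient r) + 1 ≤ 2 * Fintype.card W := by
    have h4 : ∑ x, (ins I (c x) + 2 + if x = z then 1 else 0) ≤ ∑ x, 2 * (c x).card := by
      refine sum_le_sum fun x _ => ?_
      by_cases hxz : x = z
      · rw [if_pos hxz, hxz]
        have := hI.sp _ h2
        omega
      · rw [if_neg hxz]
        have := hI.ins_lt _ (h1 x)
        omega
    rw [sum_add_distrib, sum_add_distrib, ← mul_sum, hcc, Finset.sum_const, card_univ, smul_eq_mul,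
      sum_ite_eq' univ z] at h4
    simp only [mem_univ, if_true] at h4
    omega
  have h5 : I.card ≤ ∑ x, ins I (c x) + (I.filter (fun e => ¬ ∃ x, e ⊆ c x)).card := by
    have h6 : (I.filter (fun e => ∃ x, e ⊆ c x)).card ≤ ∑ x, ins I (c x) := by
      have : I.filter (fun e => ∃ x, e ⊆ c x) ⊆ univ.biUnion (fun x => I.filter (· ⊆ c x)) := by
        intro e he
        obtain ⟨he1, x, he2⟩ := mem_filter.1 he
        exact mem_biUnion.2 ⟨x, mem_univ _, mem_filter.2 ⟨he1, he2⟩⟩
      exact (card_le_card this).trans card_biUnion_le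
    have h7 := Finset.card_filter_add_card_filter_not (s := I) (fun e => ∃ x, e ⊆ c x)
    omega
  have h8 : (I.filter (fun e => ¬ ∃ x, e ⊆ c x)).card ≤ between X id r := by
    unfold Pool.Agent.Y530.TN.between
    rw [← Set.ncard_coe_finset]
    refine le_trans (Set.ncard_le_ncard (t := Sym2.toFinset ''
      {e : Sym2 W | ∃ u v, X.Adj u v ∧ ¬ r (id u) (id v) ∧ e = s(u, v)}) ?_ (Set.toFinite _))
      (Set.ncard_image_le (Set.toFinite _))
    intro e he
    obtain ⟨he1, he2⟩ := mem_filter.1 he
    obtain ⟨a, b, hab, rfl⟩ := Finset.card_eq_two.1 (hI.pairs e he1)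
    refine ⟨s(a, b), ⟨a, b, pair_mem_pr.1 (hX he1), ?_, rfl⟩, ?_⟩
    · intro hrab
      apply he2
      refine ⟨Quotient.mk r a, ?_⟩
      intro w hw
      simp only [mem_insert, mem_singleton] at hw
      rw [hc, mem_filter]
      rcases hw with rfl | rfl
      · exact ⟨mem_univ _, rfl⟩
      · exact ⟨mem_univ _, Quotient.sound (Setoid.symm hrab)⟩
    · ext x
      simp
  have h9 := hI.card
  rw [card_univ] at h9
  rw [Nat.card_eq_fintype_card]
  omega

theorem between_bot (X : SimpleGraph W) : between X id (⊥ : Setoid W) = X.edgeSet.ncard := by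
  unfold Pool.Agent.Y530.TN.between
  congr 1
  ext e
  constructor
  · rintro ⟨u, v, huv, _, rfl⟩
    exact huv
  · intro he
    induction e using Sym2.ind with
    | _ u v => exact ⟨u, v, he, fun h => (SimpleGraph.Adj.ne he) h, rfl⟩

theorem tf_edges {X : SimpleGraph W} {I : Finset (Finset W)} (hI : Tf I univ) (hX : I ⊆ pr X) :
    2 * Fintype.card W ≤ X.edgeSet.ncard + 3 := by
  have h1 := card_edges_gI hI.pairs
  have h2 : (gI I).edgeSet.ncard ≤ X.edgeSet.ncard :=
    Set.ncard_le_ncard (edgeSet_mono (gI_le hX)) (Set.toFinite _)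
  rw [Nat.card_coe_set_eq] at h1
  have h3 := hI.card
  rw [card_univ] at h3
  omega

/-- the rank of the product of a triangle with a graph which is generically rigid in the plane -/
theorem tri_prod {X : SimpleGraph W} {I : Finset (Finset W)} (hI : Tf I univ) (hX : I ⊆ pr X) :
    genRank 3 ((⊤ : SimpleGraph (Fin 3)) □ X) =
      min (9 * Fintype.card W - 6) (3 * Fintype.card W + 3 * X.edgeSet.ncard) := by
  have hn : 2 ≤ Fintype.card W := by
    have := hI.two_le
    rwa [card_univ] at this
  have hE := tf_edges hI hX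
  refine le_antisymm ?_ ?_
  · refine le_min ?_ ?_
    · have := rank_le' ((⊤ : SimpleGraph (Fin 3)) □ X) (by
        rw [Fintype.card_prod, Fintype.card_fin]
        omega)
      rw [Fintype.card_prod, Fintype.card_fin] at this
      omega
    · have := (tri_rank X).2 ⟨⊥, rfl⟩
      have e : Nat.card (Quotient (⊥ : Setoid W)) = Nat.card W :=
        Nat.card_congr (Equiv.symm (Equiv.ofBijective (Quotient.mk (⊥ : Setoid W))
          ⟨fun a b h => Quotient.exact h, Quotient.mk_surjective⟩))
      rw [e, between_bot, Nat.card_eq_fintype_card] at this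
      omega
  · obtain ⟨r, hr⟩ := (tri_rank X).1
    rw [hr, Nat.card_eq_fintype_card]
    have hk : 1 ≤ Nat.card (Quotient r) := by
      have hne : Nonempty W := Fintype.card_pos_iff.1 (by omega)
      obtain ⟨w⟩ := hne
      have : Nonempty (Quotient r) := ⟨Quotient.mk r w⟩
      exact Nat.card_pos
    have hkn : Nat.card (Quotient r) ≤ Fintype.card W := by
      rw [← Nat.card_eq_fintype_card]
      exact Nat.card_le_card_of_surjective _ Quotient.mk_surjective
    by_cases hb : ∃ x y, x ≠ y ∧ r x y
    · by_cases h2 : 2 ≤ Nat.card (Quotient r)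
      · have := between_ge hI hX r hb h2
        refine (min_le_left _ _).trans ?_
        omega
      · refine (min_le_left _ _).trans ?_
        omega
    · have e : r = ⊥ := by
        push Not at hb
        ext x y
        constructor
        · intro h
          by_contra hne
          exact hb x y hne h
        · intro h
          have : x = y := h
          rw [this]
      subst e
      rw [between_bot]
      refine (min_le_right _ _).trans ?_
      omega

/-- the rank in space of a graph which is generically rigid in the plane: minimally rigid graphs -/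
theorem rank_ge {X : SimpleGraph W} {I : Finset (Finset W)} (hI : Tf I univ) (hX : I ⊆ pr X) :
    min (2 * Fintype.card W - 2) X.edgeSet.ncard ≤ genRank 3 X := by
  have h1 := tri_prod hI hX
  have h2 := genRank_boxProd_le (⊤ : SimpleGraph (Fin 3)) X
  rw [rank_top3, Fintype.card_fin] at h2
  have hE := tf_edges hI hX
  have hn : 2 ≤ Fintype.card W := by
    have := hI.two_le
    rwa [card_univ] at this
  rw [h1] at h2
  rcases le_total (9 * Fintype.card W - 6) (3 * Fintype.card W + 3 * X.edgeSet.ncard) with h | h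
  · rw [min_eq_left h] at h2
    refine (min_le_left _ _).trans ?_
    omega
  · rw [min_eq_right h] at h2
    refine (min_le_right _ _).trans ?_
    omega

theorem rank_gI {I : Finset (Finset W)} (hI : Tf I univ) : genRank 3 (gI I) = I.card := by
  have h1 : I ⊆ pr (gI I) := by
    intro e he
    obtain ⟨a, b, hab, rfl⟩ := Finset.card_eq_two.1 (hI.pairs e he)
    exact pair_mem_pr.2 ⟨hab, he⟩
  have h2 := rank_ge hI h1
  have h3 := card_edges_gI hI.pairs
  rw [Nat.card_coe_set_eq] at h3
  have h4 := rank_le (gI I)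
  have h5 := hI.card
  rw [card_univ] at h5
  rw [h3] at h2 h4
  omega

end tri

end Pool.Agent.T2H61.PP
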