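import Pool.Agent.T2H61.PP.Rk

/-!
# The rank of the Cartesian product of two graphs which are generically rigid in the plane
-/

set_option autoImplicit false
set_option linter.unusedSectionVars false

namespace Pool.Agent.T2H61.PP

open Matrix Finset SimpleGraph Pool.Agent.H598R2.Cnt Pool.Agent.H632R2.Laman Pool.Agent.H283R2.DR
  Pool.Agent.H789R5 Pool.Agent.T2H61.CP

/-- isomorphisms of the minimally rigid graphs on five vertices with a further edge -/
def tbl5 : List (ℕ × ℕ) := [
  (19, 266452), (20, 266515), (26, 266452), (28, 266522), (34, 266515), (35, 266522),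
  (76, 266515), (83, 270540), (90, 270540), (92, 1697), (97, 266515), (99, 1697),
  (132, 1697), (140, 5792), (147, 275524), (154, 275524), (160, 1697), (161, 5792)]

/-- adjacency after adding an edge -/
def adjp (A : ℕ → ℕ → Bool) (a b x y : ℕ) : Bool :=
  A x y || ((Nat.beq x a && Nat.beq y b) || (Nat.beq x b && Nat.beq y a))

def k5 (j : ℕ) : List (ℕ × ℕ) := bif Nat.beq j 0 then k5a else k5b

theorem ok5 : al 3 (fun i => al 5 (fun a => al 5 (fun b => Nat.beq a b ||
    (adjb ((can 5).getD i []) a b || chk 5 (look ((i * 8 + a) * 8 + b) tbl5)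
      (adjb (k5 (look ((i * 8 + a) * 8 + b) tbl5 / 262144)))
      (adjp (adjb ((can 5).getD i [])) a b))))) = true := by
  decide +kernel

instance (k : ℕ) (E : List (ℕ × ℕ)) : DecidableRel (gr k E).Adj := fun a b =>
  inferInstanceAs (Decidable (a ≠ b ∧ adjb E a b = true))

theorem ncard_gr (k : ℕ) (E : List (ℕ × ℕ)) : (gr k E).edgeSet.ncard = (gr k E).edgeFinset.card := by
  rw [← coe_edgeFinset, Set.ncard_coe_finset]

theorem e4 : (gr 4 g4a).edgeSet.ncard = 5 := by rw [ncard_gr]; decide +kernel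
theorem e5a : (gr 5 g5a).edgeSet.ncard = 7 := by rw [ncard_gr]; decide +kernel
theorem e5b : (gr 5 g5b).edgeSet.ncard = 7 := by rw [ncard_gr]; decide +kernel
theorem e5c : (gr 5 g5c).edgeSet.ncard = 7 := by rw [ncard_gr]; decide +kernel
theorem e6a : (gr 6 g6a).edgeSet.ncard = 9 := by rw [ncard_gr]; decide +kernel
theorem e6b : (gr 6 g6b).edgeSet.ncard = 9 := by rw [ncard_gr]; decide +kernel
theorem e6c : (gr 6 g6c).edgeSet.ncard = 9 := by rw [ncard_gr]; decide +kernel

theorem prod_map_le {V U W : Type} (G : SimpleGraph V) {Z : SimpleGraph U} {X : SimpleGraph W}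
    (f : U ↪ W) (hf : ∀ a b, Z.Adj a b → X.Adj (f a) (f b)) :
    (G □ Z).map ((Function.Embedding.refl V).prodMap f) ≤ G □ X := by
  intro a b hab
  rw [SimpleGraph.map_adj] at hab
  obtain ⟨⟨u, u'⟩, ⟨v, v'⟩, huv, rfl, rfl⟩ := hab
  rw [boxProd_adj] at huv
  show (G □ X).Adj (u, f u') (v, f v')
  rw [boxProd_adj]
  rcases huv with ⟨h, h'⟩ | ⟨h, h'⟩
  · exact Or.inl ⟨h, by simp only at h' ⊢; rw [h']⟩
  · exact Or.inr ⟨hf _ _ h, h'⟩

theorem indep6 {E : List (ℕ × ℕ)} (h : GenRigid 3 (gr 4 g4a □ gr 6 E))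
    (he : (gr 6 E).edgeSet.ncard = 9) :
    genRank 3 (gr 4 g4a □ gr 6 E) = (gr 4 g4a □ gr 6 E).edgeSet.ncard := by
  rw [rank_of_rigid (by simp)] at h
  rw [h, edges_boxProd, he, e4]
  simp

theorem rank45 {k : ℕ} {E E' : List (ℕ × ℕ)} (h : GenRigid 3 (gr 4 g4a □ gr 6 E'))
    (he : (gr 6 E').edgeSet.ncard = 9) (f : Fin k ↪ Fin 6)
    (hf : ∀ a b, (gr k E).Adj a b → (gr 6 E').Adj (f a) (f b)) :
    genRank 3 (gr 4 g4a □ gr k E) = 5 * k + 4 * (gr k E).edgeSet.ncard := by
  rw [indep_sub _ _ _ (prod_map_le (gr 4 g4a) f hf) (indep6 h he), edges_boxProd, e4]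
  simp

def fa : Fin 5 ↪ Fin 6 := ⟨fun i => ⟨i, by omega⟩, fun a b h => Fin.ext (by simpa using h)⟩
def fb : Fin 5 ↪ Fin 6 := ⟨![0, 1, 2, 3, 5], by decide⟩
def fc : Fin 4 ↪ Fin 6 := ⟨fun i => ⟨i, by omega⟩, fun a b h => Fin.ext (by simpa using h)⟩

theorem rank44 : genRank 3 (gr 4 g4a □ gr 4 g4a) = 40 := by
  rw [rank45 b46a e6a fc (by decide +kernel), e4]

theorem rank45' : ∀ E ∈ can 5, genRank 3 (gr 4 g4a □ gr 5 E) = 53 := by
  intro E hE
  simp only [can, List.mem_cons, List.not_mem_nil, or_false] at hE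
  rcases hE with rfl | rfl | rfl
  · rw [rank45 b46a e6a fa (by decide +kernel), e5a]
  · rw [rank45 b46b e6b fb (by decide +kernel), e5b]
  · rw [rank45 b46c e6c fb (by decide +kernel), e5c]

theorem s2_mono {V : Type} {H G : SimpleGraph V} (h : S2 H) (hHG : H ≤ G) : S2 G := by
  obtain ⟨w, n, n', hi⟩ := h
  refine ⟨w, n, n', ?_⟩
  rw [L2_inj] at hi ⊢
  intro u hu h1 h2
  exact hi u (fun a b hab => hu a b (hHG hab)) h1 h2

theorem s2_k4 : S2 (gr 4 k4) := s2_mono s2_g4a (by
  intro a b hab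
  revert a b
  decide +kernel)

section main

variable {V W : Type} [Fintype V] [DecidableEq V] [Fintype W] [DecidableEq W]

theorem k4_prod {J : Finset (Finset W)} (hJ : Tf J univ) (h4 : 4 ≤ Fintype.card W) :
    GenRigid 3 (gr 4 k4 □ gI J) := by
  rw [← rg_univ]
  refine up_abs s2_k4 (k := 4) (by norm_num) ?_ (Fintype.card W) h4 J univ card_univ hJ
  intro K S hS hK
  refine rg_of_can (by norm_num) (isCan_of_tf 4 (by norm_num) (by norm_num) K S hK hS) ?_
  intro E hE
  rw [mem_can4] at hE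
  subst hE
  exact b44

/-- a graph with four vertices and at least six edges is complete -/
theorem bij_k4 {G : SimpleGraph V} (h4 : Fintype.card V = 4) (h : 6 ≤ G.edgeSet.ncard) :
    Bij (gr 4 k4) G := by
  have h1 : G = ⊤ := by
    rw [← edgeSet_inj]
    refine Set.eq_of_subset_of_ncard_le (edgeSet_mono le_top) ?_ (Set.toFinite _)
    have h2 : (⊤ : SimpleGraph V).edgeSet.ncard = 6 := by
      rw [← coe_edgeFinset, Set.ncard_coe_finset, card_edgeFinset_top_eq_card_choose_two, h4]
      rfl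
    rw [h2]
    exact h
  subst h1
  have e : Fin 4 ≃ V := Fintype.equivOfCardEq (by simp [h4])
  refine ⟨e, ?_⟩
  intro a b hab
  exact fun h => hab.1 (e.injective h)

/-- a tight family on five points and a further edge -/
theorem bij_k5 {X : SimpleGraph W} {J : Finset (Finset W)} (hJ : Tf J univ) (hX : J ⊆ pr X)
    (h5 : Fintype.card W = 5) (h : 8 ≤ X.edgeSet.ncard) :
    Bij (gr 5 k5a) X ∨ Bij (gr 5 k5b) X := by
  obtain ⟨E, hE, f, hf, hfS, hfE⟩ := isCan_of_tf 5 (by norm_num) (by norm_num) J univ hJ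
    (by rw [card_univ, h5])
  have hb : Function.Bijective f := by
    refine ⟨hf, fun w => ?_⟩
    have : w ∈ univ.image f := by
      rw [hfS]
      exact mem_univ w
    obtain ⟨y, _, h⟩ := mem_image.1 this
    exact ⟨y, h⟩
  obtain ⟨i, hi, rfl⟩ := List.getElem_of_mem hE
  have hEi : (can 5).getD i [] = (can 5)[i] := List.getD_eq_getElem _ _ hi
  -- a further edge
  have hne : ¬ X ≤ gI J := by
    intro hle
    have h1 := card_edges_gI hJ.pairs
    rw [Nat.card_coe_set_eq] at h1
    have h2 := Set.ncard_le_ncard (edgeSet_mono hle) (Set.toFinite _)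
    have h3 := hJ.card
    rw [card_univ, h5] at h3
    omega
  rw [SimpleGraph.le_iff_adj] at hne
  push Not at hne
  obtain ⟨x, y, hxy, hnot⟩ := hne
  obtain ⟨a, rfl⟩ := hb.2 x
  obtain ⟨b, rfl⟩ := hb.2 y
  have hab : a ≠ b := fun h => hxy.ne (by rw [h])
  have hadj : ¬ adjb (can 5)[i] a b = true := by
    rw [← hfE a b hab]
    exact fun h => hnot ⟨hxy.ne, h⟩
  have hi3 : i < 3 := hi
  have k1 := (al_eq _ _).1 ((al_eq _ _).1 ((al_eq _ _).1 ok5 i hi3) a a.2) b b.2
  rw [Bool.or_eq_true, beq_iff, Bool.or_eq_true, hEi] at k1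
  have k2 := (k1.resolve_left (fun h => hab (Fin.ext h))).resolve_left hadj
  set w := look ((i * 8 + a) * 8 + b) tbl5 with hw
  have k3 := (al_eq _ _).1 k2
  have k4 : ∀ x : Fin 5, sg w x < 5 := by
    intro x
    have := k3 x x.2
    rw [Bool.and_eq_true, Nat.ble_eq] at this
    exact this.1
  have k6 : ∀ x y : Fin 5, x ≠ y → sg w x ≠ sg w y ∧
      adjb (k5 (w / 262144)) x y = adjp (adjb (can 5)[i]) a b (sg w x) (sg w y) := by
    intro x y hxy
    have := k3 x x.2
    rw [Bool.and_eq_true] at this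
    have := (al_eq _ _).1 this.2 y y.2
    rw [Bool.or_eq_true, beq_iff, Bool.and_eq_true, Bool.not_eq_true', beq_false] at this
    obtain ⟨h7, h8⟩ := this.resolve_left (fun h => hxy (Fin.ext h))
    exact ⟨h7, eq_of_beq h8⟩
  set σ : Fin 5 → Fin 5 := fun x => ⟨sg w x, k4 x⟩ with hσ
  have hσi : Function.Injective σ := by
    intro x y hxy
    by_contra hne
    exact (k6 x y hne).1 (congrArg Fin.val hxy)
  have key : Bij (gr 5 (k5 (w / 262144))) X := by
    refine ⟨(Equiv.ofBijective σ (Finite.injective_iff_bijective.1 hσi)).trans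
      (Equiv.ofBijective f hb), ?_⟩
    rintro x y ⟨hxy', h⟩
    show X.Adj (f (σ x)) (f (σ y))
    rw [(k6 x y hxy').2] at h
    have hσxy : σ x ≠ σ y := fun h => hxy' (hσi h)
    unfold adjp at h
    rw [Bool.or_eq_true, Bool.or_eq_true, Bool.and_eq_true, Bool.and_eq_true, beq_iff, beq_iff,
      beq_iff, beq_iff] at h
    rcases h with h | ⟨h1, h2⟩ | ⟨h1, h2⟩
    · exact pair_mem_pr.1 (hX ((hfE (σ x) (σ y) hσxy).2 h))
    · have e1 : σ x = a := Fin.ext h1
      have e2 : σ y = b := Fin.ext h2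
      rw [e1, e2]
      exact hxy
    · have e1 : σ x = b := Fin.ext h1
      have e2 : σ y = a := Fin.ext h2
      rw [e1, e2]
      exact hxy.symm
  unfold k5 at key
  cases hc : Nat.beq (w / 262144) 0
  · rw [hc] at key
    exact Or.inr key
  · rw [hc] at key
    exact Or.inl key

theorem rank_lower4 {G : SimpleGraph V} {X : SimpleGraph W} {I : Finset (Finset V)}
    {J : Finset (Finset W)} (hI : Tf I univ) (hJ : Tf J univ) (hG : I ⊆ pr G) (hX : J ⊆ pr X)
    (h4 : Fintype.card V = 4) (h5 : Fintype.card W = 4 ∨ Fintype.card W = 5) :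
    min (3 * (Fintype.card V * Fintype.card W) - 6)
      (Fintype.card W * genRank 3 G + Fintype.card V * genRank 3 X) ≤ genRank 3 (G □ X) := by
  have hrig : GenRigid 3 (G □ X) → min (3 * (Fintype.card V * Fintype.card W) - 6)
      (Fintype.card W * genRank 3 G + Fintype.card V * genRank 3 X) ≤ genRank 3 (G □ X) := by
    intro h
    rw [rank_of_rigid (by rw [Fintype.card_prod]; rcases h5 with h5 | h5 <;> rw [h4, h5] <;>
      norm_num), Fintype.card_prod] at h
    rw [h]
    exact min_le_left _ _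
  have hGe := rank_le G
  have hXe := rank_le X
  obtain ⟨E, hE, hbE⟩ := (isCan_of_tf 4 (by norm_num) (by norm_num) I univ hI
    (by rw [card_univ, h4])).bij
  rw [mem_can4] at hE
  subst hE
  have hbG : Bij (gr 4 g4a) G := hbE.trans (Bij.of_le (gI_le hG))
  by_cases h6 : 6 ≤ G.edgeSet.ncard
  · refine hrig (((bij_k4 h4 h6).prod (Bij.of_le (gI_le hX))).gen (k4_prod hJ ?_))
    omega
  have hG5 : genRank 3 G ≤ 5 := by omega
  rcases h5 with h5 | h5
  · by_cases h6' : 6 ≤ X.edgeSet.ncard
    · refine hrig (genRigid_comm (((bij_k4 h5 h6').prod (Bij.of_le (gI_le hG))).gen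
        (k4_prod hI ?_)))
      omega
    · obtain ⟨E, hE, hbE'⟩ := (isCan_of_tf 4 (by norm_num) (by norm_num) J univ hJ
        (by rw [card_univ, h5])).bij
      rw [mem_can4] at hE
      subst hE
      have := (hbG.prod (hbE'.trans (Bij.of_le (gI_le hX)))).rank (d := 3)
      rw [rank44] at this
      refine (min_le_right _ _).trans ?_
      rw [h4, h5]
      omega
  · by_cases h6' : 8 ≤ X.edgeSet.ncard
    · rcases bij_k5 hJ hX h5 h6' with h | h
      · exact hrig ((hbG.prod h).gen b45a)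
      · exact hrig ((hbG.prod h).gen b45b)
    · obtain ⟨E, hE, hbE'⟩ := (isCan_of_tf 5 (by norm_num) (by norm_num) J univ hJ
        (by rw [card_univ, h5])).bij
      have := (hbG.prod (hbE'.trans (Bij.of_le (gI_le hX)))).rank (d := 3)
      rw [rank45' E hE] at this
      refine (min_le_right _ _).trans ?_
      rw [h4, h5]
      omega

theorem genRank_comm (G : SimpleGraph V) (X : SimpleGraph W) :
    genRank 3 (G □ X) = genRank 3 (X □ G) := genRank_iso (boxProdComm G X)

/-- a graph with three vertices which is rigid in the plane is a triangle -/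
theorem bij_top3 {I : Finset (Finset V)} (hI : Tf I univ) (h3 : Fintype.card V = 3) :
    Bij (⊤ : SimpleGraph (Fin 3)) (gI I) := by
  obtain ⟨E, hE, hb⟩ := (isCan_of_tf 3 (by norm_num) (by norm_num) I univ hI
    (by rw [card_univ, h3])).bij
  have : E = g3a := by simpa [can] using hE
  subst this
  refine Bij.trans (Bij.of_le ?_) hb
  intro a b hab
  revert a b
  decide +kernel

theorem rank_lower3 {G : SimpleGraph V} {X : SimpleGraph W} {I : Finset (Finset V)}
    {J : Finset (Finset W)} (hI : Tf I univ) (hJ : Tf J univ) (hG : I ⊆ pr G) (hX : J ⊆ pr X)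
    (h3 : Fintype.card V = 3) :
    min (3 * (Fintype.card V * Fintype.card W) - 6)
      (Fintype.card W * genRank 3 G + Fintype.card V * genRank 3 X) ≤ genRank 3 (G □ X) := by
  have h1 := (((bij_top3 hI h3).trans (Bij.of_le (gI_le hG))).prod
    (Bij.of_le (le_refl X))).rank (d := 3)
  rw [tri_prod hJ hX] at h1
  refine le_trans ?_ h1
  have h2 := rank_le' G (by omega)
  have h4 := rank_le X
  rw [h3] at h2 ⊢
  have h5 : Fintype.card W * genRank 3 G ≤ Fintype.card W * 3 := Nat.mul_le_mul_left _ h2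
  refine min_le_min ?_ ?_ <;> omega

/-- **The rank of the product of two graphs which are generically rigid in the plane.** -/
theorem rank_prod {G : SimpleGraph V} {X : SimpleGraph W} (hG : GenRigid 2 G)
    (hX : GenRigid 2 X) (h3 : 3 ≤ Fintype.card V) (h3' : 3 ≤ Fintype.card W) :
    genRank 3 (G □ X) = min (3 * (Fintype.card V * Fintype.card W) - 6)
      (Fintype.card W * genRank 3 G + Fintype.card V * genRank 3 X) := by
  obtain ⟨I, hI, hIt⟩ := exists_tf hG (by omega)
  obtain ⟨J, hJ, hJt⟩ := exists_tf hX (by omega)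
  have h9 : 3 * 3 ≤ Fintype.card V * Fintype.card W := Nat.mul_le_mul h3 h3'
  refine le_antisymm (le_min ?_ (genRank_boxProd_le G X)) ?_
  · have := rank_le' (G □ X) (by rw [Fintype.card_prod]; omega)
    rwa [Fintype.card_prod] at this
  have hcomm : min (3 * (Fintype.card W * Fintype.card V) - 6)
      (Fintype.card V * genRank 3 X + Fintype.card W * genRank 3 G) ≤ genRank 3 (X □ G) →
      min (3 * (Fintype.card V * Fintype.card W) - 6)
      (Fintype.card W * genRank 3 G + Fintype.card V * genRank 3 X) ≤ genRank 3 (G □ X) := by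
    intro h
    rw [genRank_comm G X, mul_comm (Fintype.card V) (Fintype.card W), add_comm]
    exact h
  by_cases c3 : Fintype.card V = 3
  · exact rank_lower3 hIt hJt hI hJ c3
  by_cases c3' : Fintype.card W = 3
  · exact hcomm (rank_lower3 hJt hIt hJ hI c3')
  by_cases hbig : 3 ≤ (Fintype.card V - 3) * (Fintype.card W - 3)
  · have h := rigid_prod hG hX (by omega) (by omega) hbig
    rw [rank_of_rigid (by rw [Fintype.card_prod]; omega), Fintype.card_prod] at h
    rw [h]
    exact min_le_left _ _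
  have hcases : (Fintype.card V = 4 ∧ (Fintype.card W = 4 ∨ Fintype.card W = 5)) ∨
      (Fintype.card W = 4 ∧ (Fintype.card V = 4 ∨ Fintype.card V = 5)) := by
    by_contra hcon
    apply hbig
    rcases Nat.lt_or_ge (Fintype.card V) 6 with c1 | c1
    · rcases Nat.lt_or_ge (Fintype.card W) 6 with c2 | c2
      · have e1 : Fintype.card V - 3 = 2 := by omega
        have e2 : Fintype.card W - 3 = 2 := by omega
        rw [e1, e2]
        norm_num
      · calc 3 ≤ 1 * 3 := by norm_num
          _ ≤ _ := Nat.mul_le_mul (by omega) (by omega)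
    · calc 3 ≤ 3 * 1 := by norm_num
        _ ≤ _ := Nat.mul_le_mul (by omega) (by omega)
  rcases hcases with ⟨h4, h5⟩ | ⟨h4, h5⟩
  · exact rank_lower4 hIt hJt hI hJ h4 h5
  · exact hcomm (rank_lower4 hJt hIt hJ hI h4 h5)

/-- the rank in space of a graph which is rigid in the plane -/
theorem rank_ge_plane {X : SimpleGraph W} (hX : GenRigid 2 X) (h2 : 2 ≤ Fintype.card W) :
    min (2 * Fintype.card W - 2) X.edgeSet.ncard ≤ genRank 3 X ∧
      2 * Fintype.card W ≤ X.edgeSet.ncard + 3 := by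
  obtain ⟨J, hJ, hJt⟩ := exists_tf hX h2
  exact ⟨rank_ge hJt hJ, tf_edges hJt hJ⟩

end main

end Pool.Agent.T2H61.PP
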