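import Pool.Agent.T2H61.PP.Mv
import Pool.Agent.T2H61.PP.Br
import Pool.Agent.T2H61.PP.Cls
import Pool.Agent.T2H61.PP.Base1
import Pool.Agent.T2H61.PP.Base2
import Pool.Agent.T2H61.PP.Base3
import Pool.Agent.T2H61.PP.Base4
import Pool.Agent.T2H61.CP.Main

/-!
# Cartesian products of two graphs which are generically rigid in the plane
-/

set_option autoImplicit false
set_option linter.unusedSectionVars false

namespace Pool.Agent.T2H61.PP

open Matrix Finset SimpleGraph Pool.Agent.H598R2.Cnt Pool.Agent.H632R2.Laman Pool.Agent.H283R2.DR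
  Pool.Agent.T2H61.CP

section tf

variable {W : Type} [Fintype W] [DecidableEq W]

theorem Tf.ins_lt {I : Finset (Finset W)} {S : Finset W} (h : Tf I S) (X : Finset W)
    (hX : 1 ≤ X.card) : ins I X + 2 ≤ 2 * X.card := by
  by_cases hc : 2 ≤ X.card
  · have := h.sp X hc
    omega
  · have : ins I X = 0 := by
      unfold ins
      rw [Finset.card_eq_zero, Finset.filter_eq_empty_iff]
      intro e he heX
      have := card_le_card heX
      have := h.pairs e he
      omega
    omega

theorem Tf.connected {I : Finset (Finset W)} (h : Tf I univ) : (gI I).Connected := by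
  have hne : Nonempty W := by
    have := h.two_le
    rw [card_univ] at this
    exact Fintype.card_pos_iff.1 (by omega)
  rw [SimpleGraph.connected_iff]
  refine ⟨?_, hne⟩
  by_contra hcon
  unfold Preconnected at hcon
  push Not at hcon
  obtain ⟨x, y, hxy⟩ := hcon
  classical
  set A : Finset W := univ.filter (fun z => (gI I).Reachable x z) with hA
  have hxA : x ∈ A := by simp [hA]
  have hyA : y ∈ Aᶜ := by simp [hA, hxy]
  have h1 := h.ins_lt A (card_pos.2 ⟨x, hxA⟩)
  have h2 := h.ins_lt Aᶜ (card_pos.2 ⟨y, hyA⟩)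
  have h3 : I.card ≤ ins I A + ins I Aᶜ := by
    unfold ins
    rw [← Finset.card_union_add_card_inter]
    refine le_trans (card_le_card ?_) (Nat.le_add_right _ _)
    intro e he
    obtain ⟨a, b, hab, rfl⟩ := Finset.card_eq_two.1 (h.pairs e he)
    have hadj : (gI I).Adj a b := ⟨hab, he⟩
    rw [mem_union, mem_filter, mem_filter]
    by_cases ha : a ∈ A
    · left
      refine ⟨he, ?_⟩
      intro z hz
      simp only [mem_insert, mem_singleton] at hz
      rcases hz with rfl | rfl
      · exact ha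
      · rw [hA, mem_filter] at ha ⊢
        exact ⟨mem_univ _, ha.2.trans hadj.reachable⟩
    · right
      refine ⟨he, ?_⟩
      intro z hz
      simp only [mem_insert, mem_singleton] at hz
      rcases hz with rfl | rfl
      · exact mem_compl.2 ha
      · rw [mem_compl]
        intro hb
        apply ha
        rw [hA, mem_filter] at hb ⊢
        exact ⟨mem_univ _, hb.2.trans hadj.symm.reachable⟩
  have h4 : A.card + Aᶜ.card = Fintype.card W := Finset.card_add_card_compl A
  have h5 := h.card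
  rw [card_univ] at h5
  omega

/-- the number of edges -/
theorem card_edges_gI {I : Finset (Finset W)} (hP : Pairs I) : Nat.card (gI I).edgeSet = I.card := by
  classical
  rw [← Nat.card_eq_finsetCard I]
  refine Nat.card_congr (Equiv.ofBijective (fun e : (gI I).edgeSet => (⟨e.1.toFinset, ?_⟩ : I))
    ⟨?_, ?_⟩)
  · obtain ⟨e, he⟩ := e
    induction e using Sym2.ind with
    | _ a b =>
      have : s(a, b).toFinset = {a, b} := by
        ext x
        simp
      rw [this]
      exact he.2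
  · rintro ⟨e, he⟩ ⟨e', he'⟩ h
    have h' : e.toFinset = e'.toFinset := congrArg Subtype.val h
    apply Subtype.ext
    show e = e'
    induction e using Sym2.ind with
    | _ a b =>
      induction e' using Sym2.ind with
      | _ c d =>
        have e1 : s(a, b).toFinset = {a, b} := by
          ext x
          simp
        have e2 : s(c, d).toFinset = {c, d} := by
          ext x
          simp
        rw [e1, e2, pair_eq] at h'
        rw [Sym2.eq_iff]
        exact h'
  · rintro ⟨e, he⟩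
    obtain ⟨a, b, hab, rfl⟩ := Finset.card_eq_two.1 (hP e he)
    refine ⟨⟨s(a, b), ⟨hab, he⟩⟩, Subtype.ext ?_⟩
    show s(a, b).toFinset = {a, b}
    ext x
    simp

theorem Tf.cyclic {I : Finset (Finset W)} (h : Tf I univ) (h3 : 3 ≤ Fintype.card W) :
    ¬ (gI I).IsAcyclic := by
  refine not_acyclic_of_card h.connected ?_
  rw [card_edges_gI h.pairs, Nat.card_eq_fintype_card]
  have := h.card
  rw [card_univ] at this
  omega

theorem Tf.s2 {I : Finset (Finset W)} (h : Tf I univ) (h3 : 3 ≤ Fintype.card W) : S2 (gI I) :=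
  s2_of_cycle h.connected (h.cyclic h3)

end tf

/-! ### Copies -/

/-- `G` has a spanning subgraph which is a copy of `H` -/
def Bij {U V : Type} (H : SimpleGraph U) (G : SimpleGraph V) : Prop :=
  ∃ f : U ≃ V, ∀ a b, H.Adj a b → G.Adj (f a) (f b)

theorem Bij.gen {U V : Type} {d : ℕ} {H : SimpleGraph U} {G : SimpleGraph V} (h : Bij H G)
    (hH : GenRigid d H) : GenRigid d G := by
  obtain ⟨f, hf⟩ := h
  obtain ⟨p, hp⟩ := hH
  refine ⟨fun v => p (f.symm v), ?_⟩
  intro q hq
  obtain ⟨A, b, hA, hb⟩ := hp (fun u => q (f u)) (by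
    intro u v huv
    have := hq (f u) (f v) (hf u v huv)
    simpa using this)
  refine ⟨A, b, hA, fun v => ?_⟩
  have := hb (f.symm v)
  simpa using this

theorem Bij.prod {U V U' V' : Type} {H : SimpleGraph U} {G : SimpleGraph V} {H' : SimpleGraph U'}
    {G' : SimpleGraph V'} (h : Bij H G) (h' : Bij H' G') : Bij (H □ H') (G □ G') := by
  obtain ⟨f, hf⟩ := h
  obtain ⟨f', hf'⟩ := h'
  refine ⟨f.prodCongr f', ?_⟩
  rintro ⟨a, a'⟩ ⟨b, b'⟩ hab
  rw [boxProd_adj] at hab
  show (G □ G').Adj (f a, f' a') (f b, f' b')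
  rw [boxProd_adj]
  rcases hab with ⟨h1, h2⟩ | ⟨h1, h2⟩
  · exact Or.inl ⟨hf _ _ h1, by simp only at h2 ⊢; rw [h2]⟩
  · exact Or.inr ⟨hf' _ _ h1, by simp only at h2 ⊢; rw [h2]⟩

theorem Bij.of_le {V : Type} {H G : SimpleGraph V} (h : H ≤ G) : Bij H G :=
  ⟨Equiv.refl V, fun _ _ hab => h hab⟩

theorem Bij.trans {U V T : Type} {H : SimpleGraph U} {G : SimpleGraph V} {K : SimpleGraph T}
    (h : Bij H G) (h' : Bij G K) : Bij H K := by
  obtain ⟨f, hf⟩ := h
  obtain ⟨g, hg⟩ := h'
  exact ⟨f.trans g, fun a b hab => hg _ _ (hf _ _ hab)⟩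

theorem genRigid_comm {V W : Type} {d : ℕ} {G : SimpleGraph V} {X : SimpleGraph W}
    (h : GenRigid d (G □ X)) : GenRigid d (X □ G) := genRigid_iso (boxProdComm _ _) h

section up

variable {V W : Type} [Finite V] [Fintype W] [DecidableEq W] {G : SimpleGraph V}

/-- the product with the part of `X` on `S` is rigid at some placement -/
def Rg (G : SimpleGraph V) (X : SimpleGraph W) (S : Finset W) : Prop :=
  ∃ p : V × W → Fin 3 → ℝ, RigidOn (G □ X) {z | z.2 ∈ (S : Set W)} p

theorem Rg.mono {X Y : SimpleGraph W} {S : Finset W} (h : Rg G X S) (hXY : X ≤ Y) : Rg G Y S := by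
  obtain ⟨p, hp⟩ := h
  refine ⟨p, hp.mono_graph ?_⟩
  rintro ⟨g, s⟩ _ ⟨g', s'⟩ _ h
  rw [boxProd_adj] at h ⊢
  rcases h with h | ⟨h, h'⟩
  · exact Or.inl h
  · exact Or.inr ⟨hXY h, h'⟩

theorem rg_univ {X : SimpleGraph W} : Rg G X univ ↔ GenRigid 3 (G □ X) := by
  have e : {z : V × W | z.2 ∈ ((univ : Finset W) : Set W)} = Set.univ := by
    ext z
    simp
  unfold Rg GenRigid
  rw [e]
  exact exists_congr fun p => rigidOn_univ_iff _ _

theorem up_step (hG : S2 G) {I J : Finset (Finset W)} {S : Finset W} {v : W} (Z : SimpleGraph W)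
    (hv : v ∈ S) (h : Zext I J v (S.erase v) ∨ Oext I J v (S.erase v))
    (hR : Rg G (gI J ⊔ Z) (S.erase v)) : Rg G (gI I ⊔ Z) S := by
  have hins : insert v ((S.erase v : Finset W) : Set W) = (S : Set W) := by
    rw [← coe_insert, insert_erase hv]
  have hnv : v ∉ ((S.erase v : Finset W) : Set W) := by simp
  have hne : ∀ a ∈ S.erase v, v ≠ a := fun a ha h => (mem_erase.1 ha).1 h.symm
  unfold Rg
  rw [← hins]
  rcases h with ⟨a, ha, b, hb, hab, hIJ⟩ | ⟨a, ha, b, hb, c, hc, hab, hac, hbc, habJ, hIJ⟩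
  · refine ext0 hG hnv ha hb hab ?_ (Or.inl ⟨hne a ha, ?_⟩) (Or.inl ⟨hne b hb, ?_⟩) hR
    · rintro s _ t _ (⟨h1, h2⟩ | h1)
      · refine Or.inl ⟨h1, ?_⟩
        rw [hIJ]
        exact mem_union_left _ h2
      · exact Or.inr h1
    · rw [hIJ]
      simp
    · rw [hIJ]
      simp
  · refine ext1 hG hnv ha hb hc hab hac hbc ?_ (Or.inl ⟨hne a ha, ?_⟩) (Or.inl ⟨hne b hb, ?_⟩)
      (Or.inl ⟨hne c hc, ?_⟩) hR
    · rintro s _ t _ (⟨h1, h2⟩ | h1)
      · by_cases h3 : ({s, t} : Finset W) = {a, b}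
        · exact Or.inr (pair_eq.1 h3)
        · refine Or.inl (Or.inl ⟨h1, ?_⟩)
          rw [hIJ]
          exact mem_union_left _ (mem_erase.2 ⟨h3, h2⟩)
      · exact Or.inl (Or.inr h1)
    · rw [hIJ]
      simp
    · rw [hIJ]
      simp
    · rw [hIJ]
      simp

theorem up_rel (hG : S2 G) {I0 : Finset (Finset W)} {S0 : Finset W} (Z : SimpleGraph W)
    (h0 : Tf I0 S0) (hR : Rg G (gI I0 ⊔ Z) S0) :
    ∀ (n : ℕ) (I : Finset (Finset W)) (S : Finset W), S.card = n →
    S0 ⊆ S → I0 ⊆ I → Tf I S → Rg G (gI I ⊔ Z) S := by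
  intro n
  induction n with
  | zero =>
    intro I S hn _ _ hI
    have := hI.two_le
    omega
  | succ n ih =>
    intro I S hn hS hI0 hI
    by_cases he : S0 = S
    · subst he
      refine hR.mono (sup_le_sup_right ?_ Z)
      intro a b hab
      exact ⟨hab.1, hI0 hab.2⟩
    · have hss : S0 ⊂ S := lt_of_le_of_ne hS he
      have ht : Tight I S0 := by
        refine ⟨h0.two_le, le_antisymm (hI.sp S0 h0.two_le) ?_⟩
        rw [← h0.card]
        refine Nat.add_le_add_right ?_ 3
        unfold ins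
        exact card_le_card fun e he => mem_filter.2 ⟨hI0 he, h0.sub e he⟩
      obtain ⟨v, hv, hv0, hd⟩ := exists_low_rel hI hss ht
      have h3 : 3 ≤ S.card := by
        have := card_lt_card hss
        have := h0.two_le
        omega
      obtain ⟨J, hJ, hIJ⟩ := exists_red hI h3 hv hd
      refine up_step hG Z hv hIJ (ih J (S.erase v) ?_ ?_ ?_ hJ)
      · rw [card_erase_of_mem hv]
        omega
      · intro x hx
        exact mem_erase.2 ⟨by rintro rfl; exact hv0 hx, hS hx⟩
      · intro e he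
        have hve : v ∉ e := fun h => hv0 (h0.sub e he h)
        have heI := hI0 he
        rcases hIJ with ⟨a, ha, b, hb, hab, hIJ⟩ | ⟨a, ha, b, hb, c, hc, hab, hac, hbc, habJ, hIJ⟩
        · rw [hIJ, mem_union] at heI
          rcases heI with h | h
          · exact h
          · simp only [mem_insert, mem_singleton] at h
            rcases h with rfl | rfl
            · exact absurd (by simp) hve
            · exact absurd (by simp) hve
        · rw [hIJ, mem_union] at heI
          rcases heI with h | h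
          · exact mem_of_mem_erase h
          · simp only [mem_insert, mem_singleton] at h
            rcases h with rfl | rfl | rfl
            · exact absurd (by simp) hve
            · exact absurd (by simp) hve
            · exact absurd (by simp) hve

theorem up_abs (hG : S2 G) {k : ℕ} (hk : 2 ≤ k)
    (hb : ∀ (I : Finset (Finset W)) (S : Finset W), S.card = k → Tf I S → Rg G (gI I) S) :
    ∀ (n : ℕ), k ≤ n → ∀ (I : Finset (Finset W)) (S : Finset W), S.card = n → Tf I S →
      Rg G (gI I) S := by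
  intro n hn
  induction n, hn using Nat.le_induction with
  | base => exact hb
  | succ n hn ih =>
    intro I S hS hI
    obtain ⟨v, hv, hd⟩ := exists_low hI
    obtain ⟨J, hJ, hIJ⟩ := exists_red hI (by omega) hv hd
    have h1 := up_step hG ⊥ hv hIJ (I := I) (by
      rw [sup_bot_eq]
      refine ih J (S.erase v) ?_ hJ
      rw [card_erase_of_mem hv]
      omega)
    rwa [sup_bot_eq] at h1

theorem rg_of_can {k : ℕ} (hk : 0 < k) {I : Finset (Finset W)} {S : Finset W}
    (hc : IsCan k I S) (h : ∀ E ∈ can k, GenRigid 3 (G □ gr k E)) : Rg G (gI I) S := by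
  classical
  obtain ⟨E, hE, f, hf, hfS, hfE⟩ := hc
  obtain ⟨p, hp⟩ := h E hE
  have : Nonempty (Fin k) := ⟨⟨0, hk⟩⟩
  have hinv : ∀ y, Function.invFun f (f y) = y := Function.leftInverse_invFun hf
  refine ⟨fun z => p (z.1, Function.invFun f z.2), ?_⟩
  have hmem : ∀ g y, (g, f y) ∈ {z : V × W | z.2 ∈ (S : Set W)} := by
    intro g y
    show f y ∈ (S : Set W)
    rw [← hfS]
    simp
  intro q hq
  obtain ⟨A, b, hA, hb⟩ := hp (fun z => q (z.1, f z.2)) (by
    rintro ⟨g, y⟩ ⟨g', y'⟩ h
    have := hq (g, f y) (hmem g y) (g', f y') (hmem g' y') (by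
      rw [boxProd_adj] at h ⊢
      rcases h with ⟨h1, h2⟩ | ⟨h1, h2⟩
      · exact Or.inl ⟨h1, by simp only at h2 ⊢; rw [h2]⟩
      · refine Or.inr ⟨⟨fun h => h1.1 (hf h), ?_⟩, h2⟩
        exact (hfE y y' h1.1).2 h1.2)
    simpa [hinv] using this)
  refine ⟨A, b, hA, ?_⟩
  rintro ⟨g, w⟩ hw
  have hw' : w ∈ univ.image f := by
    rw [hfS]
    exact hw
  obtain ⟨y, _, rfl⟩ := mem_image.1 hw'
  have := hb (g, y)
  simpa [hinv] using this

end up

/-! ### Base cases -/

theorem base46 : ∀ E ∈ can 6, GenRigid 3 (gr 4 g4a □ gr 6 E) := by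
  intro E hE
  simp only [can, List.mem_cons, List.not_mem_nil, or_false] at hE
  rcases hE with rfl | rfl | rfl | rfl | rfl | rfl | rfl | rfl | rfl | rfl | rfl | rfl | rfl
  · exact b46a
  · exact b46b
  · exact b46c
  · exact b46d
  · exact b46e
  · exact b46f
  · exact b46g
  · exact b46h
  · exact b46i
  · exact b46j
  · exact b46k
  · exact b46l
  · exact b46m

theorem base55 : ∀ E ∈ can 5, ∀ E' ∈ can 5, GenRigid 3 (gr 5 E □ gr 5 E') := by
  intro E hE E' hE'
  simp only [can, List.mem_cons, List.not_mem_nil, or_false] at hE hE'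
  rcases hE with rfl | rfl | rfl <;> rcases hE' with rfl | rfl | rfl
  · exact b55aa
  · exact b55ab
  · exact b55ac
  · exact genRigid_comm b55ab
  · exact b55bb
  · exact b55bc
  · exact genRigid_comm b55ac
  · exact genRigid_comm b55bc
  · exact b55cc

theorem mem_can4 {E : List (ℕ × ℕ)} : E ∈ can 4 ↔ E = g4a := by
  simp [can]

/-- a copy from the classification -/
theorem IsCan.bij {W : Type} [Fintype W] [DecidableEq W] {k : ℕ} {I : Finset (Finset W)}
    (h : IsCan k I univ) : ∃ E ∈ can k, Bij (gr k E) (gI I) := by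
  obtain ⟨E, hE, f, hf, hfS, hfE⟩ := h
  have hb : Function.Bijective f := by
    refine ⟨hf, fun w => ?_⟩
    have : w ∈ univ.image f := by
      rw [hfS]
      exact mem_univ w
    obtain ⟨y, _, h⟩ := mem_image.1 this
    exact ⟨y, h⟩
  refine ⟨E, hE, Equiv.ofBijective f hb, ?_⟩
  rintro a b ⟨hab, h⟩
  exact ⟨fun h' => hab (hf h'), (hfE a b hab).2 h⟩

/-- a model of the minimally rigid graph with four vertices -/
theorem tf_can4 : ∃ I : Finset (Finset (Fin 4)), Tf I univ := by
  refine ⟨{{0, 1}, {0, 2}, {0, 3}, {1, 2}, {1, 3}}, ?_, ?_, fun e _ => subset_univ e, ?_⟩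
  · unfold Pairs
    decide
  · unfold Sp ins
    decide
  · decide

theorem s2_g4a : S2 (gr 4 g4a) := by
  obtain ⟨I, hI⟩ := tf_can4
  have h1 := isCan_of_tf 4 (by norm_num) (by norm_num) I univ hI (by simp)
  obtain ⟨E, hE, f, hf, hfS, hfE⟩ := h1
  rw [mem_can4] at hE
  subst hE
  have hb : Function.Bijective f := Finite.injective_iff_bijective.1 hf
  obtain ⟨w, n, n', h⟩ := hI.s2 (by simp)
  refine ⟨w ∘ f, n ∘ f, n' ∘ f, ?_⟩
  rw [L2_inj] at h ⊢
  intro u hu h1 h2
  set e := Equiv.ofBijective f hb with he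
  have hef : ∀ x, e x = f x := fun x => rfl
  have key := h (fun x => u (e.symm x)) ?_ ?_ ?_
  · funext x
    have := congrFun key (e x)
    simpa using this
  · intro x y hxy
    obtain ⟨x, rfl⟩ := e.surjective x
    obtain ⟨y, rfl⟩ := e.surjective y
    simp only [Equiv.symm_apply_apply]
    have hxy' : x ≠ y := fun h => hxy.1 (by rw [h])
    exact hu x y ⟨hxy', (hfE x y hxy').1 hxy.2⟩
  · intro x
    obtain ⟨x, rfl⟩ := e.surjective x
    simp only [Equiv.symm_apply_apply]
    exact h1 x
  · intro x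
    obtain ⟨x, rfl⟩ := e.surjective x
    simp only [Equiv.symm_apply_apply]
    exact h2 x

section main

variable {V W : Type} [Fintype V] [DecidableEq V] [Fintype W] [DecidableEq W]

theorem four_of_six {I : Finset (Finset W)} (hI : Tf I univ) (h6 : 6 ≤ Fintype.card W) :
    GenRigid 3 (gr 4 g4a □ gI I) := by
  rw [← rg_univ]
  refine up_abs s2_g4a (k := 6) (by norm_num) ?_ (Fintype.card W) h6 I univ card_univ hI
  intro J S hS hJ
  exact rg_of_can (by norm_num) (isCan_of_tf 6 (by norm_num) (by norm_num) J S hJ hS) base46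

theorem six {I : Finset (Finset V)} {J : Finset (Finset W)} (hI : Tf I univ) (hJ : Tf J univ)
    (h4 : 4 ≤ Fintype.card V) (h6 : 6 ≤ Fintype.card W) : GenRigid 3 (gI I □ gI J) := by
  apply genRigid_comm
  rw [← rg_univ]
  refine up_abs (hJ.s2 (by omega)) (k := 4) (by norm_num) ?_ (Fintype.card V) h4 I univ card_univ hI
  intro K S hS hK
  refine rg_of_can (by norm_num) (isCan_of_tf 4 (by norm_num) (by norm_num) K S hK hS) ?_
  intro E hE
  rw [mem_can4] at hE
  subst hE
  exact genRigid_comm (four_of_six hJ h6)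

theorem five {I : Finset (Finset V)} {J : Finset (Finset W)} (hI : Tf I univ) (hJ : Tf J univ)
    (h4 : Fintype.card V = 5) (h6 : Fintype.card W = 5) : GenRigid 3 (gI I □ gI J) := by
  obtain ⟨E, hE, h1⟩ := (isCan_of_tf 5 (by norm_num) (by norm_num) I univ hI
    (by rw [card_univ, h4])).bij
  obtain ⟨E', hE', h2⟩ := (isCan_of_tf 5 (by norm_num) (by norm_num) J univ hJ
    (by rw [card_univ, h6])).bij
  exact (h1.prod h2).gen (base55 E hE E' hE')

theorem tight_prod {I : Finset (Finset V)} {J : Finset (Finset W)} (hI : Tf I univ)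
    (hJ : Tf J univ) (h4 : 4 ≤ Fintype.card V) (h4' : 4 ≤ Fintype.card W)
    (h : 3 ≤ (Fintype.card V - 3) * (Fintype.card W - 3)) : GenRigid 3 (gI I □ gI J) := by
  by_cases h6 : 6 ≤ Fintype.card W
  · exact six hI hJ h4 h6
  by_cases h6' : 6 ≤ Fintype.card V
  · exact genRigid_comm (six hJ hI h4' h6')
  have : Fintype.card V = 5 ∧ Fintype.card W = 5 := by
    have e1 : Fintype.card V = 4 ∨ Fintype.card V = 5 := by omega
    have e2 : Fintype.card W = 4 ∨ Fintype.card W = 5 := by omega
    rcases e1 with e1 | e1 <;> rcases e2 with e2 | e2 <;> rw [e1, e2] at h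
    · omega
    · omega
    · omega
    · exact ⟨e1, e2⟩
  exact five hI hJ this.1 this.2

/-- **Products of graphs which are generically rigid in the plane.** -/
theorem rigid_prod {G : SimpleGraph V} {X : SimpleGraph W} (hG : GenRigid 2 G)
    (hX : GenRigid 2 X) (h4 : 4 ≤ Fintype.card V) (h4' : 4 ≤ Fintype.card W)
    (h : 3 ≤ (Fintype.card V - 3) * (Fintype.card W - 3)) : GenRigid 3 (G □ X) := by
  obtain ⟨I, hI, hIt⟩ := exists_tf hG (by omega)
  obtain ⟨J, hJ, hJt⟩ := exists_tf hX (by omega)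
  exact ((Bij.of_le (gI_le hI)).prod (Bij.of_le (gI_le hJ))).gen (tight_prod hIt hJt h4 h4' h)

end main

/-- **Transfer.** -/
theorem transfer {V U W : Type} [Finite V] [Fintype U] [Fintype W] {G : SimpleGraph V}
    {X₀ : SimpleGraph U} {X : SimpleGraph W} (hG : G.Connected) (hc : ¬ G.IsAcyclic)
    (h2 : 2 ≤ Fintype.card U) (h₀ : GenRigid 2 X₀) (hX : GenRigid 2 X) (f : U ↪ W)
    (hf : X₀.map f ≤ X) (h : GenRigid 3 (G □ X₀)) : GenRigid 3 (G □ X) := by
  classical
  obtain ⟨I0, hI0, hI0t⟩ := exists_tf h₀ h2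
  have k1 := map_pr f hf hI0
  have k2 := hI0t.map f
  obtain ⟨I, hI, hI0I, hIt⟩ := exists_tf_rel hX k1 k2
  have h3 : Rg G (gI (I0.image (fun e => e.map f)) ⊔ X₀.map f) (univ.map f) := by
    obtain ⟨p, hp⟩ := h
    have hne : Nonempty U := Fintype.card_pos_iff.1 (by omega)
    have hinv : ∀ y, Function.invFun f (f y) = y := Function.leftInverse_invFun f.injective
    refine ⟨fun z => p (z.1, Function.invFun f z.2), ?_⟩
    intro q hq
    obtain ⟨A, b, hA, hb⟩ := hp (fun z => q (z.1, f z.2)) (by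
      rintro ⟨g, y⟩ ⟨g', y'⟩ h
      have := hq (g, f y) (by simp) (g', f y') (by simp) (by
        rw [boxProd_adj] at h ⊢
        rcases h with ⟨h1, h2⟩ | ⟨h1, h2⟩
        · exact Or.inl ⟨h1, by simp only at h2 ⊢; rw [h2]⟩
        · exact Or.inr ⟨Or.inr (map_adj_apply.2 h1), h2⟩)
      simpa [hinv] using this)
    refine ⟨A, b, hA, ?_⟩
    rintro ⟨g, w⟩ hw
    have hw' : w ∈ univ.map f := hw
    obtain ⟨y, _, rfl⟩ := mem_map.1 hw'
    have := hb (g, y)
    simpa [hinv] using this
  have h4 := up_rel (s2_of_cycle hG hc) (X₀.map f) k2 h3 (Fintype.card W) I univ card_univ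
    (subset_univ _) hI0I hIt
  rw [rg_univ] at h4
  exact ((Bij.of_le (le_refl G)).prod (Bij.of_le (sup_le (gI_le hI) hf))).gen h4

end Pool.Agent.T2H61.PP
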